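import Pool.Agent.V11294.M2.Ram

/-!
# The weighted alternating sum
-/

namespace Pool.Agent.V11294.M2

open Finset

/-- `∑_{m<p} (-1)^m m C(m,j)^2`. -/
def T1 (p j : ℕ) : ℤ := ∑ m ∈ range p, (-1) ^ m * (m : ℤ) * ((m.choose j : ℕ) : ℤ) ^ 2

lemma T1_rec (p j : ℕ) : ((j : ℤ) + 1) * ((j : ℤ) + 2) ^ 2 *
    (4 * ((j : ℤ) + 1) * (2 * T1 p (j + 2) - ((j : ℤ) + 1) * TT p (j + 2)) +
    ((j : ℤ) + 2) * (2 * T1 p j - ((j : ℤ) - 1) * TT p j)) =
    -(-1) ^ p * (4 * (p : ℤ) ^ 3 - (14 * j + 20) * p ^ 2 + 4 * (j + 1) * (4 * j + 7) * p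
      - (5 * j ^ 3 + 18 * j ^ 2 + 18 * j + 4)) * (((p : ℤ) - j) * (p.choose j : ℤ)) ^ 2 := by
  induction p with
  | zero =>
    rcases j with _ | j
    · simp [TT, T1]
    · simp [TT, T1]
  | succ m ih =>
    have e : ∀ i, TT (m + 1) i = TT m i + (-1) ^ m * ((m.choose i : ℕ) : ℤ) ^ 2 := by
      intro i; unfold TT; rw [sum_range_succ]
    have e' : ∀ i, T1 (m + 1) i = T1 m i + (-1) ^ m * (m : ℤ) * ((m.choose i : ℕ) : ℤ) ^ 2 := by
      intro i; unfold T1; rw [sum_range_succ]
    rw [e, e, e', e']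
    have h1 := choose_step m j
    have h2 := choose_step m (j + 1)
    have h3 := choose_step2 m j
    push_cast at h2 ⊢
    have h4 : ((j : ℤ) + 2) * ((j : ℤ) + 1) * (m.choose (j + 2) : ℤ) =
        ((m : ℤ) - j) * ((m : ℤ) - j - 1) * (m.choose j : ℤ) := by
      linear_combination ((j : ℤ) + 1) * h2 + ((m : ℤ) - j - 1) * h1
    rw [h3]
    have h5 : (((j : ℤ) + 2) * ((j : ℤ) + 1) * (m.choose (j + 2) : ℤ)) ^ 2 =
        (((m : ℤ) - j) * ((m : ℤ) - j - 1) * (m.choose j : ℤ)) ^ 2 := by rw [h4]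
    rw [pow_succ (-1 : ℤ) m]
    linear_combination ih + 4 * (-1) ^ m * (2 * m - j - 1) * h5

lemma p_choose_zero (p k : ℕ) (hp : p.Prime) :
    ((p : ℤ) - (k : ℕ)) * (p.choose k : ℤ) = p * ((p - 1).choose k : ℤ) := by
  have h := choose_step2 (p - 1) k
  have hp1 : p - 1 + 1 = p := by have := hp.pos; omega
  rw [hp1] at h
  have h5 : ((p - 1 : ℕ) : ℤ) + 1 = p := by
    have := congrArg (Nat.cast (R := ℤ)) hp1
    push_cast at this ⊢
    exact this
  rw [h5] at h
  exact h

/-- `(2 T1(2k) - (2k-1) T(2k)) (-16)^k C(2k,k) = 16^k p` modulo `p^2`. -/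
lemma T1_RR (p n k : ℕ) (hp : p.Prime) (hpn : p = 2 * n + 1) (hk : k ≤ n) :
    cb (RR p) k * ((-16 : RR p) ^ k * ((2 * T1 p (2 * k) - (2 * (k : ℤ) - 1) * TT p (2 * k) : ℤ) :
      RR p)) = 16 ^ k * p := by
  have hx := ctx_RR p n hp hpn
  have hPP := hx.hP
  induction k with
  | zero =>
    have h0 : TT p 0 = 1 := by
      unfold TT
      simp only [Nat.choose_zero_right, Nat.cast_one, one_pow, mul_one]
      rw [hpn, sum_range_succ]
      have : ∑ x ∈ range (2 * n), (-1 : ℤ) ^ x = 0 := by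
        rw [neg_one_geom_sum]
        simp
      rw [this, pow_mul]; simp
    have h1 : 2 * T1 p 0 = p - 1 := by
      unfold T1
      simp only [Nat.choose_zero_right, Nat.cast_one, one_pow, mul_one]
      rw [hpn]
      clear * -
      induction n with
      | zero => simp
      | succ n ih =>
        rw [show 2 * (n + 1) + 1 = 2 * n + 1 + 1 + 1 by ring, sum_range_succ, sum_range_succ,
          mul_add, mul_add, ih]
        have : (-1 : ℤ) ^ (2 * n + 1) = -1 := by rw [pow_succ, pow_mul]; simp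
        rw [pow_succ (-1 : ℤ) (2 * n + 1), this]
        push_cast; ring
    have : 2 * T1 p (2 * 0) - (2 * ((0 : ℕ) : ℤ) - 1) * TT p (2 * 0) = p := by
      rw [mul_zero, h0, h1]; push_cast; ring
    rw [this]
    simp [cb]
  | succ k ih =>
    have ih' := ih (by omega)
    have hrec := T1_rec p (2 * k)
    have h3 := p_choose_zero p (2 * k) hp
    rw [h3] at hrec
    have h6 := congrArg (Int.cast (R := RR p)) hrec
    push_cast at h6 ih' ⊢
    have e2 : 2 * (k + 1) = 2 * k + 2 := by ring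
    rw [e2]
    generalize ((T1 p (2 * k + 2) : ℤ) : RR p) = A2 at *
    generalize ((T1 p (2 * k) : ℤ) : RR p) = A0 at *
    generalize ((TT p (2 * k + 2) : ℤ) : RR p) = B2 at *
    generalize ((TT p (2 * k) : ℤ) : RR p) = B0 at *
    have u1 : IsUnit (2 * (k : RR p) + 1) := by
      have := hx.hu (2 * k + 1) (by omega) (by omega)
      push_cast at this; exact this
    have u2 : IsUnit (2 * (k : RR p) + 2) := by
      have := hx.hu (2 * k + 2) (by omega) (by omega)
      push_cast at this; exact this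
    have u3 : IsUnit ((k : RR p) + 1) := by
      have := hx.hu (k + 1) (by omega) (by omega)
      push_cast at this; exact this
    have hz : ((2 * (k : RR p) + 1) * (2 * (k : RR p) + 2) ^ 2) * (4 * (2 * (k : RR p) + 1) *
        (2 * A2 - (2 * (k : RR p) + 1) * B2) + (2 * (k : RR p) + 2) * (2 * A0 -
        (2 * (k : RR p) - 1) * B0)) = 0 := by
      linear_combination h6 + (-(-1) ^ p * (4 * (p : RR p) ^ 3 - (14 * (2 * k) + 20) * p ^ 2 +
        4 * (2 * k + 1) * (4 * (2 * k) + 7) * p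
        - (5 * (2 * k) ^ 3 + 18 * (2 * k) ^ 2 + 18 * (2 * k) + 4)) *
        (((p - 1).choose (2 * k) : ℕ) : RR p) ^ 2) * hPP
    have hz3 := ((u1.mul (u2.pow 2)).mul_right_eq_zero).1 hz
    have hcb := cb_succ (R := RR p) k
    apply (u3.mul u1).mul_left_cancel
    rw [pow_succ (-16 : RR p) k, pow_succ (16 : RR p) k]
    linear_combination (2 * (k : RR p) + 1) * (-16) ^ k * (-16) * (2 * A2 - (2 * (k : RR p) + 1) * B2) * hcb
      + (-8 * (2 * (k : RR p) + 1) * cb (RR p) k * (-16) ^ k) * hz3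
      + 16 * ((k : RR p) + 1) * (2 * (k : RR p) + 1) * ih'

/-- `p ∑ C(2k,k) 16^k = p (-63)^n`. -/
lemma P_cb_sum (p n : ℕ) (hp : p.Prime) (hpn : p = 2 * n + 1) :
    (p : RR p) * ∑ k ∈ range (n + 1), 16 ^ k * cb (RR p) k = p * (-63) ^ n := by
  have hx := ctx_RR p n hp hpn
  have hPP := hx.hP
  have key : ∀ k, k ≤ n → (p : RR p) * cb (RR p) k = p * ((n.choose k : ℕ) * (-4) ^ k) := by
    intro k
    induction k with
    | zero => intro _; simp [cb]
    | succ k ih =>
      intro hk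
      have ih' := ih (by omega)
      have u3 : IsUnit ((k : RR p) + 1) := by
        have := hx.hu (k + 1) (by omega) (by omega)
        push_cast at this; exact this
      have h1 := congrArg (Int.cast (R := RR p)) (choose_step n k)
      push_cast at h1
      have hcb := cb_succ (R := RR p) k
      have h2n : (p : RR p) * (2 * n) = -p := by
        have h := congrArg (Nat.cast (R := RR p)) hpn
        push_cast at h
        linear_combination (-(p : RR p)) * h + hPP
      apply u3.mul_left_cancel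
      rw [pow_succ (-4 : RR p) k]
      linear_combination (p : RR p) * hcb + 2 * (2 * (k : RR p) + 1) * ih'
        + 4 * (p : RR p) * (-4) ^ k * h1 + 2 * (-4) ^ k * (n.choose k : RR p) * h2n
  rw [mul_sum]
  have e : ∀ k ∈ range (n + 1), (p : RR p) * (16 ^ k * cb (RR p) k) =
      p * ((-64) ^ k * 1 ^ (n - k) * (n.choose k : ℕ)) := by
    intro k hk
    have hk' : k ≤ n := by have := mem_range.1 hk; omega
    have h64 : (-64 : RR p) ^ k = 16 ^ k * (-4) ^ k := by rw [← mul_pow]; norm_num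
    rw [h64]
    linear_combination 16 ^ k * key k hk'
  rw [sum_congr rfl e, ← mul_sum, ← add_pow]
  norm_num

/-- `∑_{m<p} (-1)^m (42m+37) a(m)` modulo `p^2`. -/
theorem sum_lin (p n : ℕ) (hp : p.Prime) (hpn : p = 2 * n + 1) :
    ((∑ m ∈ range p, (-1) ^ m * (42 * (m : ℤ) + 37) * am m : ℤ) : RR p) =
      2 * ∑ k ∈ range (n + 1), (21 * (k : RR p) + 8) * ff (RR p) k + 21 * (p * (-63) ^ n) := by
  have h1 : ∑ m ∈ range p, (-1) ^ m * (42 * (m : ℤ) + 37) * am m =
      ∑ k ∈ range p, (-16) ^ k * (((2 * k).choose k : ℕ) : ℤ) ^ 2 *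
        (42 * T1 p (2 * k) + 37 * TT p (2 * k)) := by
    unfold TT T1
    simp only [mul_sum, ← sum_add_distrib]
    rw [sum_comm]
    refine sum_congr rfl fun m hm => ?_
    rw [am_eq p m (mem_range.1 hm), mul_sum]
    exact sum_congr rfl fun k _ => by ring
  have h2 : ∀ k, n < k → TT p (2 * k) = 0 := by
    intro k hk
    unfold TT
    refine sum_eq_zero fun m hm => ?_
    have := mem_range.1 hm
    rw [Nat.choose_eq_zero_of_lt (by omega)]
    simp
  have h2' : ∀ k, n < k → T1 p (2 * k) = 0 := by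
    intro k hk
    unfold T1
    refine sum_eq_zero fun m hm => ?_
    have := mem_range.1 hm
    rw [Nat.choose_eq_zero_of_lt (by omega)]
    simp
  rw [h1, ← sum_range_add_sum_Ico _ (show n + 1 ≤ p by omega)]
  rw [sum_eq_zero (s := Ico (n + 1) p), add_zero]
  · rw [← P_cb_sum p n hp hpn, mul_sum, mul_sum, mul_sum, ← sum_add_distrib]
    push_cast
    refine sum_congr rfl fun k hk => ?_
    have hk' : k ≤ n := by have := mem_range.1 hk; omega
    have h3 := TT_RR p n k hp hpn hk'
    have h4 := T1_RR p n k hp hpn hk'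
    push_cast at h4
    have hcb : (((2 * k).choose k : ℕ) : RR p) = cb (RR p) k := by
      unfold cb; rw [Nat.centralBinom_eq_two_mul_choose]
    rw [hcb]
    unfold ff
    linear_combination 21 * cb (RR p) k * h4 + (42 * (k : RR p) + 16) * cb (RR p) k ^ 2 * h3
  · intro k hk
    have hk' := Finset.mem_Ico.1 hk
    rw [h2 k (by omega), h2' k (by omega)]
    ring

end Pool.Agent.V11294.M2
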