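import Pool.Agent.V11294.M2.Alt

/-!
# The split and inert cases in terms of the symbol `(p/7)`
-/

namespace Pool.Agent.V11294.M2

open Finset

lemma seven_pow_eq (p n : ℕ) (hp : p.Prime) (hpn : p = 2 * n + 1) :
    (p : RR p) * (-7) ^ n = p * ((jacobiSym p 7 : ℤ) : RR p) := by
  have hf := Fact.mk hp
  have h1 := legendreSym.eq_pow p (-7)
  rw [show p / 2 = n by omega, jacobiSym.legendreSym.to_jacobiSym,
    neg_seven_symbol p hp (by rintro rfl; omega)] at h1
  have h2 : (((-7) ^ n - jacobiSym p 7 : ℤ) : ZMod p) = 0 := by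
    push_cast at h1 ⊢
    rw [h1, sub_self]
  rw [ZMod.intCast_zmod_eq_zero_iff_dvd] at h2
  obtain ⟨k, hk⟩ := h2
  have h3 := congrArg (Int.cast (R := RR p)) hk
  push_cast at h3
  have hPP := (ctx_RR p n hp hpn).hP
  linear_combination (p : RR p) * h3 + (k : RR p) * hPP

lemma split_data (p n : ℕ) (hp : p.Prime) (hpn : p = 2 * n + 1) (hJ : jacobiSym p 7 = 1)
    (w v : RR p) (hw : w ^ 2 - w + 2 = 0) (hv : w * v = 1) :
    ∃ a b, w ^ (2 * n) = 1 + p * a ∧ (1 - w) ^ (2 * n) = 1 + p * b := by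
  have hx := ctx_RR p n hp hpn
  have hw' : (1 - w) ^ 2 - (1 - w) + 2 = 0 := by linear_combination hw
  have hv' : (1 - w) * (w * tt p) = 1 := by linear_combination hx.ht - tt p * hw
  have h := seven_pow_eq p n hp hpn
  rw [hJ] at h
  have h1 := P_w_pow hx hp w 1 hw (by rw [h]; simp)
  have h2 := P_w_pow hx hp (1 - w) 1 hw' (by rw [h]; simp)
  have ht := hx.ht
  obtain ⟨r, hr⟩ := flat_RR p hp (w ^ p - w) (by linear_combination h1 + p * w * ht)
  obtain ⟨s, hs⟩ := flat_RR p hp ((1 - w) ^ p - (1 - w))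
    (by linear_combination h2 + p * (1 - w) * ht)
  refine ⟨v * r, w * tt p * s, ?_, ?_⟩
  · have e : w ^ p = w ^ (2 * n) * w := by
      calc w ^ p = w ^ (2 * n + 1) := by rw [← hx.hpn]
        _ = _ := pow_succ _ _
    rw [e] at hr
    linear_combination v * hr + (1 - w ^ (2 * n)) * hv
  · have e : (1 - w) ^ p = (1 - w) ^ (2 * n) * (1 - w) := by
      calc (1 - w) ^ p = (1 - w) ^ (2 * n + 1) := by rw [← hx.hpn]
        _ = _ := pow_succ _ _
    rw [e] at hs
    linear_combination w * tt p * hs + (1 - (1 - w) ^ (2 * n)) * hv'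

lemma inert_data (p n : ℕ) (hp : p.Prime) (hpn : p = 2 * n + 1) (hJ : jacobiSym p 7 = -1)
    (w : RR p) (hw : w ^ 2 - w + 2 = 0) :
    (p : RR p) * (1 - w) ^ p = p * w ∧ (p : RR p) * w ^ p = p * (1 - w) := by
  have hx := ctx_RR p n hp hpn
  have hw' : (1 - w) ^ 2 - (1 - w) + 2 = 0 := by linear_combination hw
  have h := seven_pow_eq p n hp hpn
  rw [hJ] at h
  have h1 := P_w_pow hx hp w (-1) hw (by rw [h]; simp)
  have h2 := P_w_pow hx hp (1 - w) (-1) hw' (by rw [h]; simp)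
  have ht := hx.ht
  exact ⟨by linear_combination h2 + p * w * ht, by linear_combination h1 + p * (1 - w) * ht⟩

/-- `a(m) = ∑_k (-16)^k C(m,k)^2 C(m-k,k)^2`. -/
def am (m : ℕ) : ℤ := ∑ k ∈ range (m + 1),
  (-16) ^ k * ((m.choose k : ℕ) : ℤ) ^ 2 * (((m - k).choose k : ℕ) : ℤ) ^ 2

lemma am_eq (p m : ℕ) (hm : m < p) : am m = ∑ k ∈ range p,
    (-16) ^ k * (((2 * k).choose k : ℕ) : ℤ) ^ 2 * ((m.choose (2 * k) : ℕ) : ℤ) ^ 2 := by
  unfold am
  have e : ∀ k, (-16) ^ k * ((m.choose k : ℕ) : ℤ) ^ 2 * (((m - k).choose k : ℕ) : ℤ) ^ 2 =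
      (-16) ^ k * (((2 * k).choose k : ℕ) : ℤ) ^ 2 * ((m.choose (2 * k) : ℕ) : ℤ) ^ 2 := by
    intro k
    have h := congrArg (Nat.cast (R := ℤ)) (choose_prod m k)
    push_cast at h
    linear_combination (-16) ^ k * (((m.choose k : ℕ) : ℤ) * (((m - k).choose k : ℕ) : ℤ) +
      ((m.choose (2 * k) : ℕ) : ℤ) * (((2 * k).choose k : ℕ) : ℤ)) * h
  rw [sum_congr rfl fun k _ => e k]
  apply sum_subset (range_subset_range.2 (by omega))
  intro k _ hk
  have hk' : m < k := by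
    by_contra hcon
    exact hk (mem_range.2 (by omega))
  rw [Nat.choose_eq_zero_of_lt (show m < 2 * k by omega)]
  simp

/-- `∑_{m<p} (-1)^m a(m) = ∑_k C(2k,k)^3` modulo `p^2`. -/
theorem sum_am (p n : ℕ) (hp : p.Prime) (hpn : p = 2 * n + 1) :
    ((∑ m ∈ range p, (-1) ^ m * am m : ℤ) : RR p) = ∑ k ∈ range (n + 1), ff (RR p) k := by
  have h1 : ∑ m ∈ range p, (-1) ^ m * am m =
      ∑ k ∈ range p, (-16) ^ k * (((2 * k).choose k : ℕ) : ℤ) ^ 2 * TT p (2 * k) := by
    unfold TT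
    simp only [mul_sum]
    rw [sum_comm]
    refine sum_congr rfl fun m hm => ?_
    rw [am_eq p m (mem_range.1 hm), mul_sum]
    exact sum_congr rfl fun k _ => by ring
  have h2 : ∀ k, n < k → TT p (2 * k) = 0 := by
    intro k hk
    unfold TT
    refine sum_eq_zero fun m hm => ?_
    have := mem_range.1 hm
    rw [Nat.choose_eq_zero_of_lt (by omega)]
    simp
  rw [h1, ← sum_range_add_sum_Ico _ (show n + 1 ≤ p by omega)]
  rw [sum_eq_zero (s := Ico (n + 1) p), add_zero]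
  · push_cast
    refine sum_congr rfl fun k hk => ?_
    have hk' : k ≤ n := by have := mem_range.1 hk; omega
    have h3 := TT_RR p n k hp hpn hk'
    unfold ff
    rw [show cb (RR p) k ^ 3 = cb (RR p) k ^ 2 * cb (RR p) k by ring]
    nth_rw 2 [← h3]
    unfold cb
    rw [Nat.centralBinom_eq_two_mul_choose]
    ring
  · intro k hk
    have hk' := Finset.mem_Ico.1 hk
    rw [h2 k (by omega), mul_zero]

end Pool.Agent.V11294.M2
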