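import Pool.Agent.V11294.M2.Inst

/-!
# Passing from rational numbers to residues
-/

namespace Pool.Agent.V11294.M2

open Finset

lemma num_dvd_sq (p N : ℕ) (q : ℚ) (a : ℤ) (h : (N : ℚ) * q = a) (hN : Nat.Coprime p N)
    (ha : (p : ℤ) ^ 2 ∣ a) : (p : ℤ) ^ 2 ∣ q.num := by
  have h1 : (N : ℤ) * q.num = a * q.den := by
    have h2 : (q.num : ℚ) = q * q.den := (Rat.mul_den_eq_num q).symm
    have : ((N : ℤ) * q.num : ℚ) = ((a * q.den : ℤ) : ℚ) := by
      push_cast
      rw [h2, ← h]; ring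
    exact_mod_cast this
  have h3 : (p : ℤ) ^ 2 ∣ N * q.num := by rw [h1]; exact ha.mul_right _
  have hc : IsCoprime ((p : ℤ) ^ 2) (N : ℤ) := by
    apply IsCoprime.pow_left
    exact (Nat.isCoprime_iff_coprime).2 hN
  exact hc.dvd_of_dvd_mul_left h3

/-- `C(2k,k)^3 = 0` in `RR p` for `p/2 < k < p`. -/
lemma ff_zero_of (p n k : ℕ) (hp : p.Prime) (hpn : p = 2 * n + 1) (h1 : n < k) (h2 : k < p) :
    ff (RR p) k = 0 := by
  have hd : p ∣ Nat.centralBinom k := by
    rw [Nat.centralBinom_eq_two_mul_choose]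
    exact hp.dvd_choose h2 (by omega) (by omega)
  obtain ⟨m, hm⟩ := hd
  unfold ff cb
  rw [hm]
  have hPP := (ctx_RR p n hp hpn).hP
  push_cast
  linear_combination (p : RR p) * m ^ 3 * hPP

lemma sum_range_p (p n : ℕ) (hp : p.Prime) (hpn : p = 2 * n + 1) (y : ℕ → RR p) :
    ∑ k ∈ range p, ff (RR p) k * y k = ∑ k ∈ range (n + 1), ff (RR p) k * y k := by
  have hn : n + 1 ≤ p := by omega
  rw [← sum_range_add_sum_Ico _ hn]
  rw [sum_eq_zero (s := Ico (n + 1) p), add_zero]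
  intro k hk
  have hk' := Finset.mem_Ico.1 hk
  rw [ff_zero_of p n k hp hpn (by omega) (by omega), zero_mul]

end Pool.Agent.V11294.M2
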