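import Pool.Agent.V11294.M2.Rat

/-!
# Alternating sums of squared binomial coefficients modulo `p ^ 2`, and the symbol `(p/7)`
-/

namespace Pool.Agent.V11294.M2

open Finset

/-- `∑_{m < p} (-1)^m C(m,j)^2`. -/
def TT (p j : ℕ) : ℤ := ∑ m ∈ range p, (-1) ^ m * ((m.choose j : ℕ) : ℤ) ^ 2

lemma choose_step (m j : ℕ) : ((j : ℤ) + 1) * (m.choose (j + 1) : ℤ) =
    ((m : ℤ) - j) * (m.choose j : ℤ) := by
  have h := Nat.choose_succ_right_eq m j
  rcases le_or_gt j m with hj | hj
  · have h2 : ((m - j : ℕ) : ℤ) = (m : ℤ) - j := Nat.cast_sub hj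
    have h3 := congrArg (Nat.cast (R := ℤ)) h
    push_cast at h3
    rw [h2] at h3
    linear_combination h3
  · rw [Nat.choose_eq_zero_of_lt hj, Nat.choose_eq_zero_of_lt (by omega)]
    simp

lemma choose_step2 (m j : ℕ) : ((m : ℤ) + 1 - j) * ((m + 1).choose j : ℤ) =
    ((m : ℤ) + 1) * (m.choose j : ℤ) := by
  have h := Nat.add_one_mul_choose_eq m j
  have h1 := choose_step (m + 1) j
  have h3 := congrArg (Nat.cast (R := ℤ)) h
  push_cast at h1 h3
  linear_combination -h1 - h3

lemma TT_rec (p j : ℕ) : 4 * ((j : ℤ) + 2) ^ 2 * ((j : ℤ) + 1) ^ 2 * TT p (j + 2) +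
    ((j : ℤ) + 1) ^ 3 * ((j : ℤ) + 2) * TT p j =
    -(-1) ^ p * (2 * (p : ℤ) ^ 2 - (6 * j + 8) * p + (j + 1) * (5 * j + 8)) *
      (((p : ℤ) - j) * (p.choose j : ℤ)) ^ 2 := by
  induction p with
  | zero =>
    rcases j with _ | j
    · simp [TT]
    · simp [TT]
  | succ m ih =>
    have e : ∀ i, TT (m + 1) i = TT m i + (-1) ^ m * ((m.choose i : ℕ) : ℤ) ^ 2 := by
      intro i; unfold TT; rw [sum_range_succ]
    rw [e, e]
    have h1 := choose_step m j
    have h2 := choose_step m (j + 1)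
    have h3 := choose_step2 m j
    push_cast at h2 ⊢
    have h4 : ((j : ℤ) + 2) * ((j : ℤ) + 1) * (m.choose (j + 2) : ℤ) =
        ((m : ℤ) - j) * ((m : ℤ) - j - 1) * (m.choose j : ℤ) := by
      linear_combination ((j : ℤ) + 1) * h2 + ((m : ℤ) - j - 1) * h1
    rw [h3]
    have h5 : (((j : ℤ) + 2) * ((j : ℤ) + 1) * (m.choose (j + 2) : ℤ)) ^ 2 =
        (((m : ℤ) - j) * ((m : ℤ) - j - 1) * (m.choose j : ℤ)) ^ 2 := by rw [h4]
    rw [pow_succ (-1 : ℤ) m]
    linear_combination ih + 4 * (-1) ^ m * h5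

/-- The number `∑_m (-1)^m C(m,2k)^2` times `(-16)^k` is `C(2k,k)` modulo `p^2`. -/
lemma TT_RR (p n k : ℕ) (hp : p.Prime) (hpn : p = 2 * n + 1) (hk : k ≤ n) :
    (-16 : RR p) ^ k * (TT p (2 * k) : RR p) = cb (RR p) k := by
  have hx := ctx_RR p n hp hpn
  have hPP := hx.hP
  induction k with
  | zero =>
    have : TT p 0 = 1 := by
      unfold TT
      simp only [Nat.choose_zero_right, Nat.cast_one, one_pow, mul_one]
      rw [hpn, sum_range_succ]
      have : ∑ x ∈ range (2 * n), (-1 : ℤ) ^ x = 0 := by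
        rw [neg_one_geom_sum]
        simp
      rw [this, pow_mul]; simp
    simp [this, cb]
  | succ k ih =>
    have ih' := ih (by omega)
    have hrec := TT_rec p (2 * k)
    have h3 : ((p : ℤ) - (2 * k : ℕ)) * (p.choose (2 * k) : ℤ) = p * ((p - 1).choose (2 * k) : ℤ) := by
      have h := choose_step2 (p - 1) (2 * k)
      have hp1 : p - 1 + 1 = p := by omega
      rw [hp1] at h
      have h5 : ((p - 1 : ℕ) : ℤ) + 1 = p := by
        have := congrArg (Nat.cast (R := ℤ)) hp1
        push_cast at this ⊢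
        exact this
      rw [h5] at h
      exact h
    rw [h3] at hrec
    have h6 := congrArg (Int.cast (R := RR p)) hrec
    push_cast at h6
    have hz : (4 * (2 * (k : RR p) + 2) ^ 2 * (2 * (k : RR p) + 1) ^ 2 * (TT p (2 * k + 2) : RR p) +
        (2 * (k : RR p) + 1) ^ 3 * (2 * (k : RR p) + 2) * (TT p (2 * k) : RR p)) = 0 := by
      rw [h6]
      linear_combination (-(-1) ^ p * (2 * (p : RR p) ^ 2 - (6 * (2 * k) + 8) * p +
        (2 * k + 1) * (5 * (2 * k) + 8)) * (((p - 1).choose (2 * k) : ℕ) : RR p) ^ 2) * hPP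
    have u1 : IsUnit (2 * (k : RR p) + 1) := by
      have := hx.hu (2 * k + 1) (by omega) (by omega)
      push_cast at this; exact this
    have u2 : IsUnit (2 * (k : RR p) + 2) := by
      have := hx.hu (2 * k + 2) (by omega) (by omega)
      push_cast at this; exact this
    have u3 : IsUnit ((k : RR p) + 1) := by
      have := hx.hu (k + 1) (by omega) (by omega)
      push_cast at this; exact this
    have hz2 : (2 * (k : RR p) + 1) ^ 2 * (2 * (k : RR p) + 2) *
        (8 * ((k : RR p) + 1) * (TT p (2 * k + 2) : RR p) +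
        (2 * (k : RR p) + 1) * (TT p (2 * k) : RR p)) = 0 := by
      linear_combination hz
    have hz3 := (((u1.pow 2).mul u2).mul_right_eq_zero).1 hz2
    have hcb := cb_succ (R := RR p) k
    apply u3.mul_left_cancel
    rw [show 2 * (k + 1) = 2 * k + 2 by ring, pow_succ (-16 : RR p) k, hcb, ← ih']
    linear_combination (-2 * (-16) ^ k) * hz3

lemma choose_prod (m k : ℕ) : m.choose k * (m - k).choose k = m.choose (2 * k) * (2 * k).choose k := by
  rcases le_or_gt (2 * k) m with h | h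
  · have := Nat.choose_mul (n := m) (show k ≤ 2 * k by omega)
    rw [this]
    congr 2
    omega
  · rw [Nat.choose_eq_zero_of_lt h, Nat.choose_eq_zero_of_lt (show m - k < k by omega)]
    simp

lemma neg_seven_symbol (p : ℕ) (hp : p.Prime) (h2 : p ≠ 2) :
    jacobiSym (-7) p = jacobiSym p 7 := by
  have hodd : p % 2 = 1 := by
    rcases hp.eq_two_or_odd with h | h
    · exact absurd h h2
    · exact h
  have h1 : jacobiSym (-7) p = jacobiSym (-1) p * jacobiSym 7 p := by
    rw [← jacobiSym.mul_left]; norm_num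
  have h3 : jacobiSym (-1) p = (-1) ^ (p / 2) := by
    rw [jacobiSym.at_neg_one (Nat.odd_iff.2 hodd), ZMod.χ₄_eq_neg_one_pow hodd]
  have h4 := jacobiSym.quadratic_reciprocity (a := 7) (b := p) (by decide) (Nat.odd_iff.2 hodd)
  rw [h1, h3]
  push_cast at h4
  rw [h4]
  rw [show 7 / 2 * (p / 2) = 3 * (p / 2) by norm_num, pow_mul]
  norm_num
  rw [← mul_assoc, ← mul_pow]; norm_num

end Pool.Agent.V11294.M2
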