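import Mathlib

/-!
# Hypergeometric polynomials over a ring in which `p ^ 2 = 0`: generic part
-/

namespace Pool.Agent.V11294.M2

open Finset Polynomial

variable {R : Type*} [CommRing R]

/-- The Euler derivation. -/
noncomputable def D (y : R[X]) : R[X] := X * derivative y

lemma D_add (a b : R[X]) : D (a + b) = D a + D b := by simp [D, mul_add]

lemma D_sub (a b : R[X]) : D (a - b) = D a - D b := by simp [D, mul_sub]

lemma D_mul (a b : R[X]) : D (a * b) = D a * b + a * D b := by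
  simp [D, derivative_mul]; ring

lemma D_C (a : R) : D (C a : R[X]) = 0 := by simp [D]

lemma D_one : D (1 : R[X]) = 0 := by simp [D]

lemma D_zero : D (0 : R[X]) = 0 := by simp [D]

lemma D_ofNat (n : ℕ) [n.AtLeastTwo] : D (OfNat.ofNat n : R[X]) = 0 := by simp [D]

lemma D_two : D (2 : R[X]) = 0 := D_ofNat 2

lemma D_four : D (4 : R[X]) = 0 := D_ofNat 4

lemma D_neg (a : R[X]) : D (-a) = -D a := by simp [D]

lemma D_natCast (n : ℕ) : D (n : R[X]) = 0 := by simp [D]

lemma D_X : D (X : R[X]) = X := by simp [D]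

lemma D_pow (a : R[X]) (n : ℕ) : D (a ^ n) = (n : R[X]) * a ^ (n - 1) * D a := by
  simp [D, derivative_pow]; ring

lemma D_X_pow (n : ℕ) : D ((X : R[X]) ^ n) = (n : R[X]) * X ^ n := by
  rcases n with _ | n
  · simp [D_one]
  · rw [D_pow, D_X]
    simp only [Nat.add_sub_cancel]
    ring

lemma D_sum {ι : Type*} (s : Finset ι) (f : ι → R[X]) : D (∑ i ∈ s, f i) = ∑ i ∈ s, D (f i) := by
  simp [D, mul_sum]

lemma coeff_D (y : R[X]) (m : ℕ) : (D y).coeff m = (m : R) * y.coeff m := by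
  rcases m with _ | m
  · simp [D]
  · simp [D, coeff_X_mul, coeff_derivative]
    ring

/-- Euler operator on sequences. -/
def th (y : ℕ → R) : ℕ → R := fun j => (j : R) * y j

/-- `∑_{j ≤ n} y_j e_j`. -/
noncomputable def S (e : ℕ → R[X]) (n : ℕ) (y : ℕ → R) : R[X] :=
  ∑ j ∈ range (n + 1), C (y j) * e j

lemma S_D (e : ℕ → R[X]) (n : ℕ) (A B B' : R[X])
    (h : ∀ j, j ≤ n → A * D (e j) = (j : R[X]) * B * e j + B' * e j) (y : ℕ → R) :
    A * D (S e n y) = B * S e n (th y) + B' * S e n y := by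
  unfold S
  rw [D_sum, mul_sum, mul_sum, mul_sum, ← sum_add_distrib]
  refine sum_congr rfl fun j hj => ?_
  have hj' : j ≤ n := by have := mem_range.1 hj; omega
  have := h j hj'
  rw [D_mul, D_C, th, C_mul, C_eq_natCast]
  linear_combination C (y j) * this

lemma S_shift (e : ℕ → R[X]) (n : ℕ) (P Q : R[X])
    (h : ∀ j, j < n → P * e (j + 1) = Q * e j) (y z : ℕ → R) (hz : z 0 = 0)
    (hzy : ∀ j, j < n → z (j + 1) = y j) (hy : y n = 0) :
    P * S e n z = Q * S e n y := by
  unfold S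
  rw [sum_range_succ', sum_range_succ (fun j => C (y j) * e j), hz, hy]
  simp only [C_0, zero_mul, add_zero]
  rw [mul_sum, mul_sum]
  refine sum_congr rfl fun j hj => ?_
  have hj' : j < n := mem_range.1 hj
  rw [hzy j hj']
  linear_combination C (y j) * h j hj'

lemma S_add (e : ℕ → R[X]) (n : ℕ) (y z : ℕ → R) :
    S e n (fun j => y j + z j) = S e n y + S e n z := by
  unfold S
  rw [← sum_add_distrib]
  exact sum_congr rfl fun j _ => by rw [C_add]; ring

lemma S_smul (e : ℕ → R[X]) (n : ℕ) (a : R) (y : ℕ → R) :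
    S e n (fun j => a * y j) = C a * S e n y := by
  unfold S
  rw [mul_sum]
  exact sum_congr rfl fun j _ => by rw [C_mul]; ring

lemma S_congr (e : ℕ → R[X]) (n : ℕ) {y z : ℕ → R} (h : ∀ j, j ≤ n → y j = z j) :
    S e n y = S e n z := by
  unfold S
  refine sum_congr rfl fun j hj => ?_
  rw [h j (by have := mem_range.1 hj; omega)]

/-- The family `X^j`. -/
noncomputable def eN (j : ℕ) : R[X] := X ^ j

/-- The family `X^{2j}`. -/
noncomputable def eV (j : ℕ) : R[X] := X ^ (2 * j)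

/-- The family `(4X)^j (1+X)^{2(n-j)}`. -/
noncomputable def eT (n : ℕ) (j : ℕ) : R[X] := (4 * X) ^ j * (1 + X) ^ (2 * (n - j))

/-- The family `(t^4 X(1-X))^j`. -/
noncomputable def eR (t : R) (j : ℕ) : R[X] := (C (t ^ 4) * (X * (1 - X))) ^ j

lemma D_4X_pow (j : ℕ) : D ((4 * X : R[X]) ^ j) = (j : R[X]) * (4 * X) ^ j := by
  rcases j with _ | j
  · simp [D_one]
  · rw [D_pow, D_mul, D_ofNat, D_X]
    simp only [Nat.add_sub_cancel]
    ring

lemma D_1X_pow (m : ℕ) : (1 + X) * D ((1 + X : R[X]) ^ m) = (m : R[X]) * X * (1 + X) ^ m := by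
  rcases m with _ | m
  · simp [D_one]
  · rw [D_pow, D_add, D_one, D_X]
    simp only [Nat.add_sub_cancel]
    ring

lemma eT_D (n j : ℕ) (hj : j ≤ n) :
    (1 + X) * D (eT n j : R[X]) = (j : R[X]) * (1 - X) * eT n j + (2 * (n : R[X]) * X) * eT n j := by
  unfold eT
  rw [D_mul, D_4X_pow]
  have := D_1X_pow (R := R) (2 * (n - j))
  have h1 : ((2 * (n - j) : ℕ) : R[X]) = 2 * (n : R[X]) - 2 * (j : R[X]) := by
    push_cast [Nat.cast_sub hj]; ring
  rw [h1] at this
  linear_combination (4 * X) ^ j * this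

lemma eT_shift (n j : ℕ) (hj : j < n) :
    (1 + X) ^ 2 * eT n (j + 1) = (4 * X) * (eT n j : R[X]) := by
  unfold eT
  obtain ⟨m, rfl⟩ := Nat.exists_eq_add_of_lt hj
  have h1 : j + m + 1 - (j + 1) = m := by omega
  have h2 : j + m + 1 - j = m + 1 := by omega
  rw [h1, h2]
  ring

lemma eV_D (j : ℕ) : 1 * D (eV j : R[X]) = (j : R[X]) * 2 * eV j + 0 * eV j := by
  unfold eV
  rw [D_X_pow]; push_cast; ring

lemma eV_shift (j : ℕ) : 1 * (eV (j + 1) : R[X]) = X ^ 2 * eV j := by
  unfold eV; ring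

lemma eN_D (j : ℕ) : 1 * D (eN j : R[X]) = (j : R[X]) * 1 * eN j + 0 * eN j := by
  unfold eN
  rw [D_X_pow]; ring

lemma eN_shift (j : ℕ) : 1 * (eN (j + 1) : R[X]) = X * eN j := by
  unfold eN; ring

lemma eR_D (t : R) (j : ℕ) :
    (1 - X) * D (eR t j : R[X]) = (j : R[X]) * (1 - 2 * X) * eR t j + 0 * eR t j := by
  unfold eR
  rcases j with _ | j
  · simp [D_one]
  · rw [D_pow, D_mul, D_C, D_mul, D_sub, D_one, D_X]
    simp only [Nat.add_sub_cancel]
    ring

lemma eR_shift (t : R) (ht : 2 * t = 1) (j : ℕ) :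
    16 * (eR t (j + 1) : R[X]) = X * (1 - X) * eR t j := by
  unfold eR
  have : (16 : R[X]) * C (t ^ 4) = 1 := by
    rw [← map_ofNat C 16, ← C_mul, ← C_1]
    congr 1
    linear_combination (8 * t ^ 3 + 4 * t ^ 2 + 2 * t + 1) * ht
  rw [pow_succ]
  linear_combination (C (t ^ 4) * (X * (1 - X))) ^ j * X * (1 - X) * this

/-- The Wronskian-type operator `M`. -/
noncomputable def M (y : R[X]) : R[X] := D (D y) - X ^ 2 * (D (D y) + 2 * D y + y)

lemma M_sub (a b : R[X]) : M (a - b) = M a - M b := by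
  simp only [M, D_sub]; ring

lemma M_const_mul (a b : R[X]) (ha : D a = 0) : M (a * b) = a * M b := by
  simp only [M, D_mul, ha, zero_mul, zero_add]; ring

lemma coeff_M (y : R[X]) (m : ℕ) :
    (M y).coeff (m + 2) = ((m : R) + 2) ^ 2 * y.coeff (m + 2) - ((m : R) + 1) ^ 2 * y.coeff m := by
  unfold M
  rw [coeff_sub, coeff_D, coeff_D, coeff_X_pow_mul, coeff_add,
    coeff_add, coeff_D, coeff_D]
  have : (2 * D y).coeff m = 2 * (D y).coeff m := by
    rw [← map_ofNat C 2, coeff_C_mul]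
  rw [this, coeff_D]
  push_cast
  ring

lemma coeff_M_one (y : R[X]) : (M y).coeff 1 = y.coeff 1 := by
  unfold M
  rw [coeff_sub, coeff_D, coeff_D, coeff_X_pow_mul']
  simp

/-- The operator `Q`. -/
noncomputable def Q (y : R[X]) : R[X] :=
  2 * (1 - X) ^ 2 * D (D (D y)) - 6 * X * (1 - X) * D (D y) - 2 * X * (2 - 3 * X) * D y
    - X * (1 - 2 * X) * y

lemma Q_sub (a b : R[X]) : Q (a - b) = Q a - Q b := by
  simp only [Q, D_sub]; ring

lemma Q_mul (a b : R[X]) : Q (a * b) = Q a * b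
    + 2 * (1 - X) ^ 2 * (3 * D (D a) * D b + 3 * D a * D (D b) + a * D (D (D b)))
    - 6 * X * (1 - X) * (2 * D a * D b + a * D (D b)) - 2 * X * (2 - 3 * X) * a * D b := by
  simp only [Q, D_mul, D_add]; ring

lemma coeff_Q (y : R[X]) (m : ℕ) :
    (Q y).coeff (m + 2) = 2 * ((m : R) + 2) ^ 3 * y.coeff (m + 2)
      - (4 * ((m : R) + 1) ^ 3 + 6 * ((m : R) + 1) ^ 2 + 4 * ((m : R) + 1) + 1) * y.coeff (m + 1)
      + 2 * ((m : R) + 1) ^ 3 * y.coeff m := by
  have : Q y = C 2 * D (D (D y)) - X * (C 4 * D (D (D y)) + C 6 * D (D y) + C 4 * D y + y)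
      + X ^ 2 * (C 2 * (D (D (D y)) + C 3 * D (D y) + C 3 * D y + y)) := by
    simp only [map_ofNat]
    unfold Q; ring
  rw [this, coeff_add, coeff_sub, coeff_C_mul, coeff_D, coeff_D, coeff_D, coeff_X_mul,
    coeff_X_pow_mul]
  simp only [coeff_add, coeff_C_mul, coeff_D]
  push_cast
  ring

lemma coeff_Q_one (y : R[X]) : (Q y).coeff 1 = 2 * y.coeff 1 - y.coeff 0 := by
  have : Q y = C 2 * D (D (D y)) - X * (C 4 * D (D (D y)) + C 6 * D (D y) + C 4 * D y + y)
      + X ^ 2 * (C 2 * (D (D (D y)) + C 3 * D (D y) + C 3 * D y + y)) := by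
    simp only [map_ofNat]
    unfold Q; ring
  have hx : ∀ q : R[X], (X * q).coeff 1 = q.coeff 0 := fun q => coeff_X_mul q 0
  rw [this, coeff_add, coeff_sub, coeff_C_mul, coeff_D, coeff_D, coeff_D, hx, coeff_X_pow_mul']
  simp only [coeff_add, coeff_C_mul, coeff_D]
  simp

lemma M_uniq (p : ℕ) (hu : ∀ m : ℕ, 0 < m → m < p → IsUnit (m : R)) (Z : R[X]) (hZ : M Z = 0)
    (h0 : Z.coeff 0 = 0) (hd : Z.natDegree < p) : Z = 0 := by
  have key : ∀ m, m < p → Z.coeff m = 0 := by
    intro m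
    induction m using Nat.strong_induction_on with
    | _ m ih =>
      intro hm
      rcases m with _ | _ | m
      · exact h0
      · have := coeff_M_one Z
        rw [hZ, coeff_zero] at this
        exact this.symm
      · have h1 := coeff_M Z m
        rw [hZ, coeff_zero, ih m (by omega) (by omega), mul_zero, sub_zero] at h1
        have h2 := (hu (m + 2) (by omega) hm).pow 2
        push_cast at h2
        exact (h2.mul_right_eq_zero).1 h1.symm
  ext m
  by_cases hm : m < p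
  · rw [key m hm, coeff_zero]
  · rw [coeff_eq_zero_of_natDegree_lt (by omega), coeff_zero]

lemma Q_uniq (p : ℕ) (hu : ∀ m : ℕ, 0 < m → m < p → IsUnit (m : R)) (t : R) (ht : 2 * t = 1)
    (Z : R[X]) (hZ : Q Z = 0)
    (h0 : Z.coeff 0 = 0) (hd : Z.natDegree < p) : Z = 0 := by
  have h2 : IsUnit (2 : R) := IsUnit.of_mul_eq_one t ht
  have key : ∀ m, m < p → Z.coeff m = 0 := by
    intro m
    induction m using Nat.strong_induction_on with
    | _ m ih =>
      intro hm
      rcases m with _ | _ | m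
      · exact h0
      · have := coeff_Q_one Z
        rw [hZ, coeff_zero, h0, sub_zero] at this
        exact (h2.mul_right_eq_zero).1 this.symm
      · have h1 := coeff_Q Z m
        rw [hZ, coeff_zero, ih m (by omega) (by omega), ih (m + 1) (by omega) (by omega),
          mul_zero, mul_zero, sub_zero, add_zero] at h1
        have h3 := (hu (m + 2) (by omega) hm).pow 3
        push_cast at h3
        exact ((h2.mul h3).mul_right_eq_zero).1 h1.symm
  ext m
  by_cases hm : m < p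
  · rw [key m hm, coeff_zero]
  · rw [coeff_eq_zero_of_natDegree_lt (by omega), coeff_zero]

lemma natDegree_S_le (e : ℕ → R[X]) (n d : ℕ) (y : ℕ → R) (h : ∀ j, j ≤ n → (e j).natDegree ≤ d) :
    (S e n y).natDegree ≤ d := by
  unfold S
  refine natDegree_sum_le_of_forall_le _ _ fun j hj => ?_
  refine (natDegree_C_mul_le _ _).trans (h j (by have := mem_range.1 hj; omega))

lemma natDegree_eT_le (n j : ℕ) (hj : j ≤ n) : (eT n j : R[X]).natDegree ≤ 2 * n := by
  unfold eT
  refine natDegree_mul_le.trans ?_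
  have h1 : ((4 * X : R[X]) ^ j).natDegree ≤ j := by
    refine natDegree_pow_le.trans ?_
    have : (4 * X : R[X]).natDegree ≤ 1 := by
      rw [← map_ofNat C 4]; exact (natDegree_C_mul_le _ _).trans natDegree_X_le
    nlinarith
  have h2 : ((1 + X : R[X]) ^ (2 * (n - j))).natDegree ≤ 2 * (n - j) := by
    refine natDegree_pow_le.trans ?_
    have : (1 + X : R[X]).natDegree ≤ 1 := by
      refine (natDegree_add_le _ _).trans ?_
      simp [natDegree_X_le]
    nlinarith
  omega

lemma natDegree_eV_le (n j : ℕ) (hj : j ≤ n) : (eV j : R[X]).natDegree ≤ 2 * n := by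
  unfold eV
  exact (natDegree_X_pow_le _).trans (by omega)

lemma natDegree_eN_le (n j : ℕ) (hj : j ≤ n) : (eN j : R[X]).natDegree ≤ n := by
  unfold eN
  exact (natDegree_X_pow_le _).trans (by omega)

lemma natDegree_eR_le (t : R) (n j : ℕ) (hj : j ≤ n) : (eR t j : R[X]).natDegree ≤ 2 * n := by
  unfold eR
  refine natDegree_pow_le.trans ?_
  have : (C (t ^ 4) * (X * (1 - X)) : R[X]).natDegree ≤ 2 := by
    refine (natDegree_C_mul_le _ _).trans (natDegree_mul_le.trans ?_)
    have h1 : (X : R[X]).natDegree ≤ 1 := natDegree_X_le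
    have h2 : (1 - X : R[X]).natDegree ≤ 1 := by
      refine (natDegree_sub_le _ _).trans ?_
      simp [natDegree_X_le]
    omega
  nlinarith

lemma coeff_zero_T (n : ℕ) (y : ℕ → R) : (S (eT n) n y).coeff 0 = y 0 := by
  unfold S
  rw [finsetSum_coeff, sum_range_succ']
  simp [eT, mul_pow, coeff_zero_eq_eval_zero, eval_pow]

lemma coeff_zero_V (n : ℕ) (y : ℕ → R) : (S eV n y).coeff 0 = y 0 := by
  unfold S
  rw [finsetSum_coeff, sum_range_succ']
  simp [eV, coeff_zero_eq_eval_zero, eval_pow]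

lemma coeff_zero_N (n : ℕ) (y : ℕ → R) : (S eN n y).coeff 0 = y 0 := by
  unfold S
  rw [finsetSum_coeff, sum_range_succ']
  simp [eN, coeff_zero_eq_eval_zero, eval_pow]

lemma coeff_zero_R (t : R) (n : ℕ) (y : ℕ → R) : (S (eR t) n y).coeff 0 = y 0 := by
  unfold S
  rw [finsetSum_coeff, sum_range_succ']
  simp [eR, mul_pow, coeff_zero_eq_eval_zero, eval_pow]

end Pool.Agent.V11294.M2
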