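import Pool.Agent.V11294.M2.Main

/-!
# The concrete sequences over a ring in which `p ^ 2 = 0`
-/

namespace Pool.Agent.V11294.M2

open Finset Polynomial

variable (R : Type*) [CommRing R]

/-- Inverse of a natural number. -/
noncomputable def iv (m : ℕ) : R := Ring.inverse (m : R)

/-- `H_{2j} - H_j = ∑_{j < i ≤ 2j} 1/i`. -/
noncomputable def dl (j : ℕ) : R := ∑ i ∈ Ico j (2 * j), iv R (i + 1)

/-- Central binomial coefficients. -/
def cb (j : ℕ) : R := (Nat.centralBinom j : R)

noncomputable def cc (t : R) (j : ℕ) : R := cb R j ^ 2 * t ^ (4 * j)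
noncomputable def gg (t : R) (j : ℕ) : R := cc R t j * (4 * dl R j)
def ff (j : ℕ) : R := cb R j ^ 3
def ss (t : R) (j : ℕ) : R := cb R j * t ^ (2 * j)

variable {R}

lemma cb_succ (j : ℕ) : ((j : R) + 1) * cb R (j + 1) = 2 * (2 * (j : R) + 1) * cb R j := by
  have := congrArg (Nat.cast (R := R)) (Nat.succ_mul_centralBinom_succ j)
  push_cast at this
  unfold cb
  linear_combination this

section

variable {p n : ℕ} {t : R} (hx : Ctx R p n t)
include hx

lemma iv_mul (m : ℕ) (h0 : 0 < m) (h1 : m < p) : (m : R) * iv R m = 1 :=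
  Ring.mul_inverse_cancel _ (hx.hu m h0 h1)

lemma dl_succ (j : ℕ) (hj : j < n) :
    dl R (j + 1) = dl R j + iv R (2 * j + 1) - iv R (2 * j + 2) := by
  have hpn := hx.hpn
  unfold dl
  rw [show 2 * (j + 1) = 2 * j + 1 + 1 by ring, sum_Ico_succ_top (show j + 1 ≤ 2 * j + 1 by omega)]
  have h1 : ∑ i ∈ Ico j (2 * j + 1), iv R (i + 1) =
      iv R (j + 1) + ∑ i ∈ Ico (j + 1) (2 * j + 1), iv R (i + 1) :=
    sum_eq_sum_Ico_succ_bot (by omega) _
  have h2 : ∑ i ∈ Ico j (2 * j + 1), iv R (i + 1) =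
      (∑ i ∈ Ico j (2 * j), iv R (i + 1)) + iv R (2 * j + 1) :=
    sum_Ico_succ_top (by omega) _
  have h3 : iv R (j + 1) = 2 * iv R (2 * j + 2) := by
    have a1 := iv_mul hx (j + 1) (by omega) (by omega)
    have a2 := iv_mul hx (2 * j + 2) (by omega) (by omega)
    push_cast at a1 a2
    have : iv R (j + 1) = iv R (j + 1) * ((2 * (j : R) + 2) * iv R (2 * j + 2)) := by
      rw [a2, mul_one]
    rw [this]
    linear_combination 2 * iv R (2 * j + 2) * a1
  rw [show 2 * j + 1 + 1 = 2 * j + 2 by ring]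
  linear_combination h2 - h1 - h3

lemma cc_succ (j : ℕ) : ((j : R) + 1) ^ 2 * cc R t (j + 1) = ((j : R) + t) ^ 2 * cc R t j := by
  have h1 := cb_succ (R := R) j
  unfold cc
  have e : ((j : R) + 1) ^ 2 * (cb R (j + 1) ^ 2 * t ^ (4 * (j + 1))) =
      (((j : R) + 1) * cb R (j + 1)) ^ 2 * t ^ (4 * j) * t ^ 4 := by ring
  rw [e, h1]
  have h2 : (2 * (2 * (j : R) + 1)) ^ 2 * t ^ 4 = ((j : R) + t) ^ 2 := by
    have e1 : (2 * (2 * (j : R) + 1)) * t ^ 2 = (j : R) + t := by
      linear_combination ((j : R) * (2 * t + 1) + t) * hx.ht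
    linear_combination ((2 * (2 * (j : R) + 1)) * t ^ 2 + ((j : R) + t)) * e1
  linear_combination cb R j ^ 2 * t ^ (4 * j) * h2

theorem sq_conc : Sq p n t (cc R t) (gg R t) (ff R) := by
  refine ⟨fun j _ => cc_succ hx j, fun j hj => ?_, fun j _ => ?_, ?_, ?_, ?_⟩
  · have hpn := hx.hpn
    have hd := dl_succ hx j hj
    have hc := cc_succ hx j
    have hx1 := iv_mul hx (2 * j + 1) (by omega) (by omega)
    have hy := iv_mul hx (2 * j + 2) (by omega) (by omega)
    push_cast at hx1 hy
    have ht := hx.ht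
    unfold gg
    rw [hd]
    generalize iv R (2 * j + 1) = x at *
    generalize iv R (2 * j + 2) = y at *
    linear_combination (p : R) * (4 * (dl R j + x - y) * hc + 4 * y * hc
      - 2 * (j + 1) * cc R t (j + 1) * hy
      + 2 * (j + t) * cc R t j * hx1 + 2 * (j + t) * cc R t j * x * ht)
  · have h1 := cb_succ (R := R) j
    unfold ff
    have e : ((j : R) + 1) ^ 3 * (cb R (j + 1) ^ 3) = (((j : R) + 1) * cb R (j + 1)) ^ 3 := by ring
    rw [e, h1]
    have e1 : (2 * (2 * (j : R) + 1)) = 4 * ((j : R) + t) := by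
      linear_combination -2 * hx.ht
    rw [e1]; ring
  · simp [cc, cb]
  · simp [gg, dl]
  · simp [ff, cb]

lemma P_choose_pred (hp : p.Prime) (k : ℕ) (hk : k < p) :
    (p : R) * (((p - 1).choose k : ℕ) : R) = p * (-1) ^ k := by
  induction k with
  | zero => simp
  | succ k ih =>
    have h1 := Nat.choose_succ_succ (p - 1) k
    have h2 : (p - 1).succ = p := by have := hp.pos; omega
    rw [h2] at h1
    obtain ⟨q, hq⟩ := hp.dvd_choose_self (show k + 1 ≠ 0 by omega) hk
    have h3 : (p : R) * ((p.choose (k + 1) : ℕ) : R) = 0 := by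
      rw [hq]; push_cast; linear_combination (q : R) * hx.hP
    have h4 := congrArg (Nat.cast (R := R)) h1
    push_cast at h4
    have h5 := ih (by omega)
    rw [pow_succ]
    linear_combination (-(p : R)) * h4 + h3 - h5

lemma choose_p (hp : p.Prime) (k : ℕ) (hk0 : 0 < k) (hk : k < p) :
    ((p.choose k : ℕ) : R) = p * ((-1) ^ (k - 1) * iv R k) := by
  obtain ⟨i, rfl⟩ : ∃ i, k = i + 1 := ⟨k - 1, by omega⟩
  have h1 := Nat.add_one_mul_choose_eq (p - 1) i
  rw [show p - 1 + 1 = p by have := hp.pos; omega] at h1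
  have h2 := congrArg (Nat.cast (R := R)) h1
  have h3 := P_choose_pred hx hp i (by omega)
  have h4 := iv_mul hx (i + 1) (by omega) hk
  push_cast at h2 h4
  simp only [Nat.add_sub_cancel]
  linear_combination (-((p.choose (i + 1) : ℕ) : R)) * h4 - iv R (i + 1) * h2 + iv R (i + 1) * h3

/-- The truncated logarithm. -/
noncomputable def lg (p : ℕ) (x : R) : R := ∑ j ∈ Ico 1 p, (-1) ^ (j - 1) * iv R j * x ^ j

lemma lg_eq (hp : p.Prime) (x : R) : (p : R) * lg p x = (1 + x) ^ p - 1 - x ^ p := by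
  have h1 : (1 + x) ^ p = 1 + ∑ j ∈ Ico 1 p, ((p.choose j : ℕ) : R) * x ^ j + x ^ p := by
    rw [add_comm 1 x, add_pow, sum_range_succ, range_eq_Ico, sum_eq_sum_Ico_succ_bot hp.pos]
    simp only [one_pow, mul_one, pow_zero, Nat.choose_zero_right, Nat.cast_one, Nat.choose_self,
      zero_add]
    congr 2
    exact sum_congr rfl fun j _ => by ring
  rw [h1]
  unfold lg
  rw [mul_sum]
  have : ∑ j ∈ Ico 1 p, (p : R) * ((-1) ^ (j - 1) * iv R j * x ^ j) =
      ∑ j ∈ Ico 1 p, ((p.choose j : ℕ) : R) * x ^ j := by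
    refine sum_congr rfl fun j hj => ?_
    have hj' := Finset.mem_Ico.1 hj
    rw [choose_p hx hp j (by omega) hj'.2]; ring
  rw [this]; ring

lemma dl_n : dl R n = lg p 1 := by
  have hpn := hx.hpn
  have key : ∀ m, m ≤ n → dl R m = ∑ j ∈ Ico 1 (2 * m + 1), ((-1) ^ (j - 1) * iv R j) := by
    intro m
    induction m with
    | zero => intro _; simp [dl]
    | succ m ih =>
      intro hm
      rw [dl_succ hx m (by omega), ih (by omega)]
      rw [show 2 * (m + 1) + 1 = 2 * m + 1 + 1 + 1 by ring,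
        sum_Ico_succ_top (show 1 ≤ 2 * m + 1 + 1 by omega),
        sum_Ico_succ_top (show 1 ≤ 2 * m + 1 by omega)]
      simp only [Nat.add_sub_cancel]
      rw [pow_succ, pow_mul]
      simp
      ring
  rw [key n le_rfl, ← hpn]
  unfold lg
  refine sum_congr rfl fun j _ => ?_
  simp

lemma P_dl_n (hp : p.Prime) : (p : R) * dl R n = 2 ^ p - 2 := by
  rw [dl_n hx, lg_eq hx hp]
  rw [one_pow]; norm_num; ring

lemma ss_succ (j : ℕ) : (2 * (j : R) + 2) * ss R t (j + 1) = (2 * (j : R) + 1) * ss R t j := by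
  have h1 := cb_succ (R := R) j
  unfold ss
  have e : (2 * (j : R) + 2) * (cb R (j + 1) * t ^ (2 * (j + 1))) =
      2 * (((j : R) + 1) * cb R (j + 1)) * t ^ (2 * j) * t ^ 2 := by ring
  rw [e, h1]
  linear_combination (2 * (j : R) + 1) * cb R j * t ^ (2 * j) * (2 * t + 1) * hx.ht

lemma ss_rev (k : ℕ) (hk : k ≤ n) :
    ss R t (n - k) = ss R t n * ss R t k * (1 - p * dl R k) := by
  have hpn := hx.hpn
  induction k with
  | zero => simp [ss, cb, dl]
  | succ k ih =>
    have ih' := ih (by omega)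
    obtain ⟨m, hm⟩ : ∃ m, n - k = m + 1 := ⟨n - k - 1, by omega⟩
    rw [hm] at ih'
    have hm' : n - (k + 1) = m := by omega
    rw [hm']
    have h1 := ss_succ hx m
    have h2 := ss_succ hx k
    have hd := dl_succ hx k (by omega)
    have hx1 := iv_mul hx (2 * k + 1) (by omega) (by omega)
    have hy := iv_mul hx (2 * k + 2) (by omega) (by omega)
    push_cast at hx1 hy
    have hP := hx.hP
    have hmk : (m : R) = (n : R) - k - 1 := by
      have : n = m + 1 + k := by omega
      rw [this]; push_cast; ring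
    have h2n : 2 * (n : R) = p - 1 := by
      have h := congrArg (Nat.cast (R := R)) hpn
      push_cast at h
      linear_combination -h
    -- relation (2k+2-p) s_m = (2k+1-p) s_{m+1}
    have h3 : (2 * (k : R) + 2 - p) * ss R t m = (2 * (k : R) + 1 - p) * ss R t (m + 1) := by
      rw [hmk] at h1
      linear_combination h1 + (ss R t m - ss R t (m + 1)) * h2n
    rw [hd]
    rw [ih'] at h3
    generalize iv R (2 * k + 1) = x at *
    generalize iv R (2 * k + 2) = y at *
    generalize ss R t n = N at *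
    generalize ss R t k = s0 at *
    generalize ss R t (k + 1) = s1 at *
    generalize ss R t m = sm at *
    generalize dl R k = d at *
    generalize (p : R) = P at *
    generalize (k : R) = κ at *
    -- unit: (2κ+2-P) * (y * (1 + P y)) = 1
    have hunit : (2 * κ + 2 - P) * (y * (1 + P * y)) = 1 := by
      linear_combination (1 + P * y) * hy - y ^ 2 * hP
    have h4 : (2 * κ + 2 - P) * (N * s1 * (1 - P * (d + x - y))) =
        (2 * κ + 1 - P) * (N * s0 * (1 - P * d)) := by
      linear_combination N * (1 - P * (d + x - y)) * h2 + P * N * s1 * hy - P * N * y * h2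
        - P * N * s0 * hx1 + (N * s1 * (d + x - y) - N * d * s0) * hP
    linear_combination (y * (1 + P * y)) * (h3 - h4) - (sm - N * s1 * (1 - P * (d + x - y))) * hunit

lemma cc_eq (k : ℕ) : cc R t k = ss R t k ^ 2 := by
  unfold cc ss
  ring

lemma ss_n_sq : ss R t n ^ 2 = 1 + p * dl R n := by
  have h := ss_rev hx n le_rfl
  rw [Nat.sub_self] at h
  have h0 : ss R t 0 = 1 := by simp [ss, cb]
  rw [h0] at h
  linear_combination -(1 + p * dl R n) * h + ss R t n ^ 2 * dl R n ^ 2 * hx.hP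

/-- Reversal. -/
lemma cc_rev (k : ℕ) (hk : k ≤ n) :
    cc R t (n - k) = (1 + p * dl R n) * (cc R t k - p * (t * gg R t k)) := by
  have h := ss_rev (t := t) hx k hk
  rw [cc_eq hx, h]
  unfold gg
  rw [cc_eq hx, ← ss_n_sq (t := t) hx]
  linear_combination (-2 * ss R t n ^ 2 * ss R t k ^ 2 * p * dl R k) * (-hx.ht)
    + ss R t n ^ 2 * ss R t k ^ 2 * dl R k ^ 2 * hx.hP

/-- Evaluation of the polynomial with coefficients `y_j`, `j ≤ n`. -/
def ev (n : ℕ) (y : ℕ → R) (x : R) : R := ∑ j ∈ range (n + 1), y j * x ^ j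

omit hx in
lemma eval_N (y : ℕ → R) (x : R) : (S eN n y).eval x = ev n y x := by
  unfold S eN ev
  rw [eval_finsetSum]
  exact sum_congr rfl fun j _ => by simp

omit hx in
lemma eval_V (y : ℕ → R) (x : R) : (S eV n y).eval x = ev n y (x ^ 2) := by
  unfold S eV ev
  rw [eval_finsetSum]
  exact sum_congr rfl fun j _ => by simp [pow_mul]

omit hx in
lemma eval_R (y : ℕ → R) (x : R) : (S (eR t) n y).eval x = ev n y (t ^ 4 * (x * (1 - x))) := by
  unfold S eR ev
  rw [eval_finsetSum]
  exact sum_congr rfl fun j _ => by simp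

omit hx in
lemma eval_T (y : ℕ → R) (k x : R) (h : 4 * k = x * (1 + k) ^ 2) :
    (S (eT n) n y).eval k = (1 + k) ^ (2 * n) * ev n y x := by
  unfold S eT ev
  rw [eval_finsetSum, mul_sum]
  refine sum_congr rfl fun j hj => ?_
  have hj' : j ≤ n := by have := mem_range.1 hj; omega
  obtain ⟨m, rfl⟩ := Nat.exists_eq_add_of_le hj'
  have h3 : j + m - j = m := by omega
  simp only [eval_mul, eval_C, eval_pow, eval_add, eval_one, eval_X, eval_ofNat]
  rw [h3, h, mul_pow, pow_mul (1 + k), pow_mul (1 + k), pow_add]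
  ring

/-- Reversal for the values. -/
lemma ev_rev (x y : R) (hxy : x * y = 1) :
    x ^ n * ev n (cc R t) y = (1 + p * dl R n) * (ev n (cc R t) x - p * (t * ev n (gg R t) x)) := by
  have e1 : x ^ n * ev n (cc R t) y = ∑ j ∈ range (n + 1), cc R t (n - j) * x ^ j := by
    unfold ev
    rw [← Finset.sum_range_reflect (fun j => cc R t (n - j) * x ^ j), mul_sum]
    refine sum_congr rfl fun j hj => ?_
    have hj' : j ≤ n := by have := mem_range.1 hj; omega
    have h1 : n + 1 - 1 - j = n - j := by omega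
    have h2 : n - (n - j) = j := by omega
    rw [h1, h2]
    have h3 : x ^ n = x ^ (n - j) * x ^ j := by rw [← pow_add]; congr 1; omega
    rw [h3]
    have h4 : x ^ j * y ^ j = 1 := by rw [← mul_pow, hxy, one_pow]
    linear_combination (x ^ (n - j) * cc R t j) * h4
  rw [e1]
  have e2 : ∀ j ∈ range (n + 1), cc R t (n - j) * x ^ j =
      (1 + p * dl R n) * (cc R t j * x ^ j - p * (t * (gg R t j * x ^ j))) := by
    intro j hj
    have hj' : j ≤ n := by have := mem_range.1 hj; omega
    rw [cc_rev hx j hj']; ring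
  rw [sum_congr rfl e2, ← mul_sum, sum_sub_distrib, ← mul_sum, ← mul_sum]
  rfl

end

end Pool.Agent.V11294.M2
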