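import Pool.Agent.V11294.M2.Point

/-!
# The ring `(ZMod p^2)[ω]`, `ω ^ 2 = ω - 2`
-/

namespace Pool.Agent.V11294.M2

open Finset Polynomial

/-- `(ZMod p^2)[ω]` with `ω ^ 2 = -2 + ω`. -/
abbrev RR (p : ℕ) := QuadraticAlgebra (ZMod (p ^ 2)) (-2) 1

/-- The inverse of two. -/
def tt (p : ℕ) : RR p := (((p ^ 2 + 1) / 2 : ℕ) : RR p)

/-- The generator. -/
def om (p : ℕ) : RR p := ⟨0, 1⟩

lemma om_eq (p : ℕ) : (om p) ^ 2 - om p + 2 = 0 := by
  have h : (om p) ^ 2 = (om p) * (om p) := pow_two _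
  rw [h]
  ext
  · simp [om, QuadraticAlgebra.re_ofNat]
  · simp [om, QuadraticAlgebra.im_ofNat]

lemma natCast_RR_eq_zero (p m : ℕ) (h : p ^ 2 ∣ m) : ((m : ℕ) : RR p) = 0 := by
  have h1 : ((m : ℕ) : ZMod (p ^ 2)) = 0 := (ZMod.natCast_eq_zero_iff _ _).2 h
  ext
  · simpa using h1
  · simp

lemma intCast_RR_eq_zero (p : ℕ) (m : ℤ) (h : ((m : ℤ) : RR p) = 0) : (p : ℤ) ^ 2 ∣ m := by
  have h1 := congrArg QuadraticAlgebra.re h
  have h2 : ((m : ℤ) : ZMod (p ^ 2)) = 0 := by simpa using h1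
  have h3 := (ZMod.intCast_zmod_eq_zero_iff_dvd m (p ^ 2)).1 h2
  exact_mod_cast h3

lemma ctx_RR (p n : ℕ) (hp : p.Prime) (hpn : p = 2 * n + 1) : Ctx (RR p) p n (tt p) := by
  have hPP : (p : RR p) * p = 0 := by
    have := natCast_RR_eq_zero p (p ^ 2) dvd_rfl
    push_cast at this
    rw [← this]; ring
  refine ⟨hpn, ?_, hPP, ?_⟩
  · unfold tt
    have h1 : 2 * ((p ^ 2 + 1) / 2) = p ^ 2 + 1 := by
      have : (p ^ 2) % 2 = 1 := by
        rw [Nat.pow_mod, show p % 2 = 1 by omega]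
      omega
    have h2 := congrArg (Nat.cast (R := RR p)) h1
    push_cast at h2
    rw [h2]; linear_combination hPP
  · intro m h0 h1
    have hc : Nat.Coprime m (p ^ 2) := by
      apply Nat.Coprime.pow_right
      exact (Nat.coprime_of_lt_prime h0.ne' h1 hp).symm
    obtain ⟨k, hk⟩ := Nat.exists_mul_mod_eq_one_of_coprime hc (by nlinarith [hp.two_le])
    have h3 : m * k = p ^ 2 * (m * k / p ^ 2) + 1 := by
      have := Nat.div_add_mod (m * k) (p ^ 2)
      omega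
    have h4 := congrArg (Nat.cast (R := RR p)) h3
    push_cast at h4
    refine IsUnit.of_mul_eq_one (k : RR p) ?_
    rw [h4]
    linear_combination ((m * k / p ^ 2 : ℕ) : RR p) * hPP

lemma flat_A (p : ℕ) (hp : p.Prime) (x : ZMod (p ^ 2)) (h : (p : ZMod (p ^ 2)) * x = 0) :
    ∃ r, x = p * r := by
  have : NeZero (p ^ 2) := ⟨pow_ne_zero _ hp.ne_zero⟩
  obtain ⟨m, rfl⟩ := ZMod.natCast_zmod_surjective x
  have h1 : ((p * m : ℕ) : ZMod (p ^ 2)) = 0 := by push_cast; exact h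
  rw [ZMod.natCast_eq_zero_iff, pow_two] at h1
  obtain ⟨k, hk⟩ := Nat.dvd_of_mul_dvd_mul_left hp.pos h1
  exact ⟨k, by rw [hk]; push_cast; ring⟩

lemma flat_RR (p : ℕ) (hp : p.Prime) (x : RR p) (h : (p : RR p) * x = 0) : ∃ r, x = p * r := by
  have h1 := congrArg QuadraticAlgebra.re h
  have h2 := congrArg QuadraticAlgebra.im h
  simp only [QuadraticAlgebra.re_mul, QuadraticAlgebra.im_mul, QuadraticAlgebra.re_natCast,
    QuadraticAlgebra.im_natCast, QuadraticAlgebra.re_zero, QuadraticAlgebra.im_zero, mul_zero,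
    zero_mul, add_zero] at h1 h2
  obtain ⟨r1, hr1⟩ := flat_A p hp x.re h1
  obtain ⟨r2, hr2⟩ := flat_A p hp x.im h2
  refine ⟨⟨r1, r2⟩, ?_⟩
  ext
  · simp [hr1]
  · simp [hr2]

/-- `(-7)^n = ±1` modulo `p`. -/
lemma seven_pow (p n : ℕ) (hp : p.Prime) (hpn : p = 2 * n + 1) (h7 : p ≠ 7) :
    (p : RR p) * (-7) ^ n = p ∨ (p : RR p) * (-7) ^ n = -p := by
  have hf := Fact.mk hp
  have h7' : (-7 : ZMod p) ≠ 0 := by
    intro h
    have : ((7 : ℕ) : ZMod p) = 0 := by push_cast; linear_combination -h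
    rw [ZMod.natCast_eq_zero_iff] at this
    exact h7 ((Nat.prime_dvd_prime_iff_eq hp (by norm_num)).1 this)
  have h1 := ZMod.pow_div_two_eq_neg_one_or_one p h7'
  rw [show p / 2 = n by omega] at h1
  have key : ∀ z : ℤ, (z : ZMod p) = 0 → (p : RR p) * (z : RR p) = 0 := by
    intro z hz
    rw [ZMod.intCast_zmod_eq_zero_iff_dvd] at hz
    obtain ⟨k, rfl⟩ := hz
    have hPP := (ctx_RR p n hp hpn).hP
    push_cast
    linear_combination (k : RR p) * hPP
  rcases h1 with h1 | h1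
  · left
    have := key ((-7) ^ n - 1) (by push_cast; rw [h1, sub_self])
    push_cast at this
    linear_combination this
  · right
    have := key ((-7) ^ n + 1) (by push_cast; rw [h1]; ring)
    push_cast at this
    linear_combination this

section

variable {R : Type*} [CommRing R] {p n : ℕ} {t : R} (hx : Ctx R p n t)
include hx

lemma P_t_pow (hp : p.Prime) : (p : R) * t ^ p = p * t := by
  have h1 := P_dl_n hx hp
  have h2 : (2 : R) ^ p * t ^ p = 1 := by rw [← mul_pow, hx.ht, one_pow]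
  have h3 : (p : R) * 2 ^ p = 2 * p := by linear_combination (-(p : R)) * h1 + dl R n * hx.hP
  linear_combination (-(p : R)) * t ^ p * hx.ht + t * p * h2 - t * t ^ p * h3

lemma P_add_pow (hp : p.Prime) (x : R) : (p : R) * (1 + x) ^ p = p * (1 + x ^ p) := by
  have h := lg_eq hx hp x
  linear_combination (-(p : R)) * h + lg p x * hx.hP

/-- Frobenius on `w = (1+y)/2`, `y^2 = -7`. -/
lemma P_w_pow (hp : p.Prime) (w ε : R) (hw : w ^ 2 - w + 2 = 0)
    (h : (p : R) * (-7) ^ n = p * ε) :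
    (p : R) * w ^ p = p * ((1 + ε * (2 * w - 1)) * t) := by
  have hy : (2 * w - 1) ^ p = (2 * w - 1) * (-7) ^ n := by
    have e : (2 * w - 1) ^ 2 = -7 := by linear_combination 4 * hw
    calc (2 * w - 1) ^ p = (2 * w - 1) ^ (2 * n + 1) := by rw [← hx.hpn]
      _ = ((2 * w - 1) ^ 2) ^ n * (2 * w - 1) := by rw [pow_succ, pow_mul]
      _ = _ := by rw [e]; ring
  have h1 : w ^ p = (1 + (2 * w - 1)) ^ p * t ^ p := by
    rw [← mul_pow]; congr 1; linear_combination (-w) * hx.ht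
  have h2 := P_add_pow hx hp (2 * w - 1)
  have h3 := P_t_pow hx hp
  rw [h1]
  rw [hy] at h2
  linear_combination t ^ p * h2 + (1 + (2 * w - 1) * (-7) ^ n) * h3 + (2 * w - 1) * t * h

end

/-- Dichotomy for the two CM points. -/
theorem dichotomy (p n : ℕ) (hp : p.Prime) (hpn : p = 2 * n + 1) (h7 : p ≠ 7) (w v : RR p)
    (hw : w ^ 2 - w + 2 = 0) (hv : w * v = 1) :
    (∃ a b, w ^ (2 * n) = 1 + p * a ∧ (1 - w) ^ (2 * n) = 1 + p * b) ∨
    ((p : RR p) * (1 - w) ^ p = p * w ∧ (p : RR p) * w ^ p = p * (1 - w)) := by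
  have hx := ctx_RR p n hp hpn
  have hw' : (1 - w) ^ 2 - (1 - w) + 2 = 0 := by linear_combination hw
  have hv' : (1 - w) * (w * tt p) = 1 := by linear_combination hx.ht - tt p * hw
  rcases seven_pow p n hp hpn h7 with h | h
  · left
    have h1 := P_w_pow hx hp w 1 hw (by rw [h]; ring)
    have h2 := P_w_pow hx hp (1 - w) 1 hw' (by rw [h]; ring)
    have ht := hx.ht
    obtain ⟨r, hr⟩ := flat_RR p hp (w ^ p - w) (by linear_combination h1 + p * w * ht)
    obtain ⟨s, hs⟩ := flat_RR p hp ((1 - w) ^ p - (1 - w))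
      (by linear_combination h2 + p * (1 - w) * ht)
    refine ⟨v * r, w * tt p * s, ?_, ?_⟩
    · have e : w ^ p = w ^ (2 * n) * w := by
        calc w ^ p = w ^ (2 * n + 1) := by rw [← hx.hpn]
          _ = _ := pow_succ _ _
      rw [e] at hr
      linear_combination v * hr + (1 - w ^ (2 * n)) * hv
    · have e : (1 - w) ^ p = (1 - w) ^ (2 * n) * (1 - w) := by
        calc (1 - w) ^ p = (1 - w) ^ (2 * n + 1) := by rw [← hx.hpn]
          _ = _ := pow_succ _ _
      rw [e] at hs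
      linear_combination w * tt p * hs + (1 - (1 - w) ^ (2 * n)) * hv'
  · right
    have h1 := P_w_pow hx hp w (-1) hw (by rw [h]; ring)
    have h2 := P_w_pow hx hp (1 - w) (-1) hw' (by rw [h]; ring)
    have ht := hx.ht
    exact ⟨by linear_combination h2 + p * w * ht, by linear_combination h1 + p * (1 - w) * ht⟩

lemma isUnit_seven (p n : ℕ) (hp : p.Prime) (hpn : p = 2 * n + 1) (h7 : p ≠ 7) :
    IsUnit (7 : RR p) := by
  have hc : Nat.Coprime 7 (p ^ 2) := by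
    apply Nat.Coprime.pow_right
    exact (Nat.coprime_primes (by norm_num) hp).2 (Ne.symm h7)
  obtain ⟨k, hk⟩ := Nat.exists_mul_mod_eq_one_of_coprime hc (by nlinarith [hp.two_le])
  have h3 : 7 * k = p ^ 2 * (7 * k / p ^ 2) + 1 := by
    have := Nat.div_add_mod (7 * k) (p ^ 2)
    omega
  have h4 := congrArg (Nat.cast (R := RR p)) h3
  push_cast at h4
  refine IsUnit.of_mul_eq_one (k : RR p) ?_
  rw [h4]
  linear_combination ((7 * k / p ^ 2 : ℕ) : RR p) * (ctx_RR p n hp hpn).hP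

lemma isUnit_y (p n : ℕ) (hp : p.Prime) (hpn : p = 2 * n + 1) (h7 : p ≠ 7) (w : RR p)
    (hw : w ^ 2 - w + 2 = 0) : IsUnit (2 * w - 1) := by
  have h := (isUnit_seven p n hp hpn h7).neg
  have e : (-7 : RR p) = (2 * w - 1) * (2 * w - 1) := by linear_combination (-4) * hw
  rw [e] at h
  exact isUnit_of_mul_isUnit_left h

/-- `F(-v^12) = F(1)` modulo `p^2` (both are zero in the inert case). -/
theorem F_v_eq (p n : ℕ) (hp : p.Prime) (hpn : p = 2 * n + 1) (h7 : p ≠ 7) (w v : RR p)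
    (hw : w ^ 2 - w + 2 = 0) (hv : w * v = 1) :
    ∑ j ∈ range (n + 1), ff (RR p) j * (-v ^ 12) ^ j = ∑ j ∈ range (n + 1), ff (RR p) j := by
  have hx := ctx_RR p n hp hpn
  rw [F_v hx w v hw hv, F_w hx w hw]
  rcases dichotomy p n hp hpn h7 w v hw hv with ⟨a, b, ha, hb⟩ | ⟨h1, _⟩
  · rw [split_pt hx hp w v a b hw hv ha hb]
  · obtain ⟨e1, e2⟩ := inert_pt (t := tt p) hx w v hw hv h1 (isUnit_y p n hp hpn h7 w hw)
    obtain ⟨r, hr⟩ := flat_RR p hp _ e1
    obtain ⟨s, hs⟩ := flat_RR p hp _ e2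
    rw [hr, hs]
    linear_combination (s ^ 2 - r ^ 2) * hx.hP

/-- `F(1) = 0` modulo `p^2` in the inert case. -/
theorem F_one_inert (p n : ℕ) (hp : p.Prime) (hpn : p = 2 * n + 1) (h7 : p ≠ 7) (w : RR p)
    (hw : w ^ 2 - w + 2 = 0) (h : (p : RR p) * (1 - w) ^ p = p * w) :
    ∑ j ∈ range (n + 1), ff (RR p) j = 0 := by
  have hx := ctx_RR p n hp hpn
  have hv : w * ((1 - w) * tt p) = 1 := by linear_combination hx.ht - tt p * hw
  rw [F_w hx w hw]
  obtain ⟨e1, _⟩ := inert_pt (t := tt p) hx w _ hw hv h (isUnit_y p n hp hpn h7 w hw)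
  obtain ⟨r, hr⟩ := flat_RR p hp _ e1
  rw [hr]
  linear_combination r ^ 2 * hx.hP

end Pool.Agent.V11294.M2
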