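import Pool.Agent.V11294.M2.Basic

/-!
# Landen and Clausen modulo `p ^ 2`
-/

namespace Pool.Agent.V11294.M2

open Finset Polynomial

variable {R : Type*} [CommRing R]

/-- Standing hypotheses: `p = 2n+1` is nilpotent of order two, smaller integers are units. -/
structure Ctx (R : Type*) [CommRing R] (p n : ℕ) (t : R) : Prop where
  hpn : p = 2 * n + 1
  ht : 2 * t = 1
  hP : (p : R) * p = 0
  hu : ∀ m : ℕ, 0 < m → m < p → IsUnit (m : R)

/-- The three coefficient sequences. -/
structure Sq (p n : ℕ) (t : R) (c g f : ℕ → R) : Prop where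
  hc : ∀ j, j < n → ((j : R) + 1) ^ 2 * c (j + 1) = ((j : R) + t) ^ 2 * c j
  hg : ∀ j, j < n → (p : R) * (((j : R) + 1) ^ 2 * g (j + 1) + 2 * ((j : R) + 1) * c (j + 1)) =
    p * (((j : R) + t) ^ 2 * g j + 2 * ((j : R) + t) * c j)
  hf : ∀ j, j < n → ((j : R) + 1) ^ 3 * f (j + 1) = 64 * ((j : R) + t) ^ 3 * f j
  c0 : c 0 = 1
  g0 : g 0 = 0
  f0 : f 0 = 1

section

variable {p n : ℕ} {t : R} (hx : Ctx R p n t) {c g f : ℕ → R} (hs : Sq p n t c g f)
include hx

lemma Ctx.hn : (n : R) + t = p * t := by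
  have h := congrArg (Nat.cast (R := R)) hx.hpn
  push_cast at h
  rw [h]
  linear_combination (-(n : R)) * hx.ht

lemma Ctx.hn2 : ((n : R) + t) ^ 2 = 0 := by
  rw [hx.hn]; linear_combination t ^ 2 * hx.hP

lemma Ctx.hn3 : ((n : R) + t) ^ 3 = 0 := by
  rw [hx.hn]; linear_combination (p : R) * t ^ 3 * hx.hP

lemma Ctx.h2n : 2 * (n : R[X]) = (p : R[X]) - 1 := by
  have h := congrArg (Nat.cast (R := R[X])) hx.hpn
  push_cast at h
  linear_combination -h

lemma Ctx.hPX : (p : R[X]) * p = 0 := by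
  have := congrArg (C : R → R[X]) hx.hP
  rw [C_mul, C_0, C_eq_natCast] at this
  exact this

lemma Ctx.h4 : (4 : R[X]) * C (t ^ 2) = 1 := by
  rw [← map_ofNat C 4, ← C_mul, ← C_1]
  congr 1
  linear_combination (2 * t + 1) * hx.ht

lemma Ctx.h2 : (2 : R[X]) * C t = 1 := by
  rw [← map_ofNat C 2, ← C_mul, ← C_1, hx.ht]

include hs

lemma eq_c (e : ℕ → R[X]) (P Q : R[X]) (hPQ : ∀ j, j < n → P * e (j + 1) = Q * e j) :
    4 * (P * S e n (th (th c))) = Q * (4 * S e n (th (th c)) + 4 * S e n (th c) + S e n c) := by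
  have key := S_shift e n P Q hPQ (fun j => ((j : R) + t) ^ 2 * c j) (th (th c))
    (by simp [th]) (fun j hj => by
      have := hs.hc j hj
      simp only [th]; push_cast; linear_combination this) (by simp only [hx.hn2]; ring)
  have e1 : S e n (fun j => ((j : R) + t) ^ 2 * c j) =
      S e n (th (th c)) + S e n (th c) + C (t ^ 2) * S e n c := by
    rw [← S_smul, ← S_add, ← S_add]
    refine S_congr e n fun j _ => ?_
    simp only [th]
    linear_combination (j : R) * c j * hx.ht
  rw [key, e1]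
  linear_combination Q * S e n c * hx.h4

lemma eq_g (e : ℕ → R[X]) (P Q : R[X]) (hPQ : ∀ j, j < n → P * e (j + 1) = Q * e j) :
    4 * ((p : R[X]) * (P * (S e n (th (th g)) + 2 * S e n (th c)))) =
      (p : R[X]) * (Q * (4 * S e n (th (th g)) + 4 * S e n (th g) + S e n g + 8 * S e n (th c)
        + 4 * S e n c)) := by
  have hn' : (p : R) * ((n : R) + t) = 0 := by
    rw [hx.hn]; linear_combination t * hx.hP
  have key := S_shift e n P Q hPQ
    (fun j => (p : R) * (((j : R) + t) ^ 2 * g j + 2 * ((j : R) + t) * c j))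
    (fun j => (p : R) * (th (th g) j + 2 * th c j))
    (by simp [th]) (fun j hj => by
      have := hs.hg j hj
      simp only [th]; push_cast; linear_combination this) (by
      have e : (p : R) * (((n : R) + t) ^ 2 * g n + 2 * ((n : R) + t) * c n) =
        (p * ((n : R) + t)) * (((n : R) + t) * g n + 2 * c n) := by ring
      exact e.trans (by rw [hn', zero_mul]))
  have hCp : (C (p : R) : R[X]) = p := C_eq_natCast p
  have e0 : S e n (fun j => (p : R) * (th (th g) j + 2 * th c j)) =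
      (p : R[X]) * (S e n (th (th g)) + 2 * S e n (th c)) := by
    have h2 : (2 : R[X]) = C 2 := (map_ofNat C 2).symm
    rw [h2, ← S_smul, ← S_add, ← hCp, ← S_smul]
  have e1 : S e n (fun j => (p : R) * (((j : R) + t) ^ 2 * g j + 2 * ((j : R) + t) * c j)) =
      (p : R[X]) * (S e n (th (th g)) + S e n (th g) + C (t ^ 2) * S e n g + C 2 * S e n (th c)
        + S e n c) := by
    rw [← S_smul, ← S_smul, ← S_add, ← S_add, ← S_add, ← S_add, ← hCp, ← S_smul]
    refine S_congr e n fun j _ => ?_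
    simp only [th]
    linear_combination (p : R) * (j * g j + c j) * hx.ht
  rw [e0, e1] at key
  have hc2 : (C 2 : R[X]) = 2 := map_ofNat C 2
  rw [hc2] at key
  linear_combination 4 * key + (p : R[X]) * Q * S e n g * hx.h4

lemma eq_f (e : ℕ → R[X]) (P Q : R[X]) (hPQ : ∀ j, j < n → P * e (j + 1) = Q * e j) :
    P * S e n (th (th (th f))) =
      Q * (64 * S e n (th (th (th f))) + 96 * S e n (th (th f)) + 48 * S e n (th f)
        + 8 * S e n f) := by
  have key := S_shift e n P Q hPQ (fun j => 64 * ((j : R) + t) ^ 3 * f j) (th (th (th f)))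
    (by simp [th]) (fun j hj => by
      have := hs.hf j hj
      simp only [th]; push_cast; linear_combination this) (by simp only [hx.hn3]; ring)
  have e1 : S e n (fun j => 64 * ((j : R) + t) ^ 3 * f j) =
      C 64 * S e n (th (th (th f))) + C 96 * S e n (th (th f)) + C 48 * S e n (th f)
        + C 8 * S e n f := by
    rw [← S_smul, ← S_smul, ← S_smul, ← S_smul, ← S_add, ← S_add, ← S_add]
    refine S_congr e n fun j _ => ?_
    simp only [th]
    linear_combination (f j * (96 * j ^ 2 + 48 * j * (2 * t + 1) + 8 * (4 * t ^ 2 + 2 * t + 1)))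
      * hx.ht
  rw [key, e1]
  simp only [map_ofNat]

omit hs in
lemma M_T (y : ℕ → R) :
    (1 + X) * M (S (eT n) n y) = (1 - X) * ((1 + X) ^ 2 * S (eT n) n (th (th y))
      - X * (4 * S (eT n) n (th (th y)) + 4 * S (eT n) n (th y) + S (eT n) n y))
      + (p : R[X]) * (X * ((1 - X ^ 2) * (S (eT n) n y + D (S (eT n) n y)) + (1 - X) ^ 2 * S (eT n) n (th y)
        - 2 * X * S (eT n) n y)) := by
  have e1 := S_D (eT n) n (1 + X) (1 - X) (2 * (n : R[X]) * X) (fun j hj => eT_D n j hj) y
  have e2 := S_D (eT n) n (1 + X) (1 - X) (2 * (n : R[X]) * X) (fun j hj => eT_D n j hj) (th y)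
  rw [hx.h2n] at e1 e2
  have e4 := congrArg D e1
  simp only [D_mul, D_add, D_sub, D_one, D_X, D_natCast] at e4
  unfold M
  linear_combination (1 - X ^ 2) * e4 + (1 - X) ^ 2 * e2 - 2 * X * e1

omit hx hs in
lemma M_V (y : ℕ → R) :
    M (S eV n y) = 4 * S eV n (th (th y)) - X ^ 2 * (4 * S eV n (th (th y)) +
      4 * S eV n (th y) + S eV n y) := by
  have e1 := S_D eV n 1 2 0 (fun j _ => eV_D j) y
  have e2 := S_D eV n 1 2 0 (fun j _ => eV_D j) (th y)
  have e4 := congrArg D e1
  simp only [zero_mul, one_mul, add_zero] at e4 e1 e2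
  rw [D_mul, D_two, zero_mul, zero_add] at e4
  unfold M
  rw [e4, e1, e2]
  ring

omit hx hs in
lemma cancel_1X' {a : R[X]} (h : (1 + X) * a = 0) : a = 0 := by
  have hm : (X + C (1 : R)).Monic := monic_X_add_C 1
  have : (X + C (1 : R)) * a = 0 := by
    rw [C_1]; linear_combination h
  exact (hm.mul_right_eq_zero_iff).1 this

lemma M_Vc : M (S eV n c) = 0 := by
  have m := M_V (n := n) c
  have h := eq_c hx hs eV 1 (X ^ 2) (fun j _ => eV_shift j)
  linear_combination m + h

lemma dT : (1 + X) * D (S (eT n) n c) = (1 - X) * S (eT n) n (th c) + ((p : R[X]) - 1) * X * S (eT n) n c := by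
  have e1 := S_D (eT n) n (1 + X) (1 - X) (2 * (n : R[X]) * X) (fun j hj => eT_D n j hj) c
  rw [hx.h2n] at e1
  exact e1

/-- Landen modulo `p`. -/
theorem landen1 : (p : R[X]) * S (eT n) n c = (p : R[X]) * S eV n c := by
  have hT := eq_c hx hs (eT n) ((1 + X) ^ 2) (4 * X) (fun j hj => eT_shift n j hj)
  have m1 := M_T hx c
  have hV := M_Vc hx hs
  have hq : D ((p : R[X])) = 0 := D_natCast p
  have hM : M ((p : R[X]) * (S (eT n) n c - S eV n c)) = 0 := by
    rw [M_const_mul _ _ hq, M_sub, hV, sub_zero]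
    apply cancel_1X'
    have h4 := hx.h4
    have hPX := hx.hPX
    have : 4 * ((1 + X) * ((p : R[X]) * M (S (eT n) n c))) = 0 := by
      linear_combination 4 * (p : R[X]) * m1 + (p : R[X]) * (1 - X) * hT
        + 4 * (X * ((1 - X ^ 2) * (S (eT n) n c + D (S (eT n) n c)) + (1 - X) ^ 2 * S (eT n) n (th c)
        - 2 * X * S (eT n) n c)) * hPX
    linear_combination C (t ^ 2) * this - ((1 + X) * ((p : R[X]) * M (S (eT n) n c))) * h4
  have hpp : 2 * n < p := by have := hx.hpn; omega
  have := M_uniq p hx.hu _ hM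
    (by rw [mul_coeff_zero, coeff_sub, coeff_zero_T, coeff_zero_V, sub_self, mul_zero])
    (by
      refine lt_of_le_of_lt ?_ hpp
      rw [← C_eq_natCast]
      refine (natDegree_C_mul_le _ _).trans ?_
      exact (natDegree_sub_le_iff_left (n := 2 * n)
        (natDegree_S_le _ _ _ _ (natDegree_eV_le n))).2 (natDegree_S_le _ _ _ _ (natDegree_eT_le n)))
  linear_combination this

/-- Landen modulo `p ^ 2`. -/
theorem landen2 : 4 * (S (eT n) n c - S eV n c) = (p : R[X]) * (2 * S (eT n) n g - S eV n g) := by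
  have hT := eq_c hx hs (eT n) ((1 + X) ^ 2) (4 * X) (fun j hj => eT_shift n j hj)
  have hTg := eq_g hx hs (eT n) ((1 + X) ^ 2) (4 * X) (fun j hj => eT_shift n j hj)
  have hVg := eq_g hx hs eV 1 (X ^ 2) (fun j _ => eV_shift j)
  have m1 := M_T hx c
  have m2 := M_T hx g
  have m3 := M_V (n := n) g
  have hV := M_Vc hx hs
  have hL := landen1 hx hs
  have hPX := hx.hPX
  have h4 := hx.h4
  have d1 := dT hx hs
  have dV := S_D eV n 1 2 0 (fun j _ => eV_D j) c
  have hDL := congrArg D hL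
  rw [D_mul, D_mul, D_natCast, zero_mul, zero_mul, zero_add, zero_add] at hDL
  have hq : D ((p : R[X])) = 0 := D_natCast p
  set t0 : R[X] := S (eT n) n c
  set t1 : R[X] := S (eT n) n (th c)
  set v0 : R[X] := S eV n c
  -- M of T c
  have hMc : (1 + X) * (4 * M t0) = (p : R[X]) * (4 * X * (2 * (1 - X) ^ 2 * t1 + (1 - 3 * X) * t0)) := by
    linear_combination 4 * m1 + (1 - X) * hT + 4 * (p : R[X]) * X * (1 - X) * d1
      + 4 * X * (1 - X) * X * t0 * hPX
  have hMg : (1 + X) * (4 * ((p : R[X]) * M (S (eT n) n g))) =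
      (p : R[X]) * (4 * (1 - X) * (4 * X * t0 - 2 * (1 - X) ^ 2 * t1)) := by
    linear_combination 4 * (p : R[X]) * m2 + (1 - X) * hTg
      + 4 * (X * ((1 - X ^ 2) * (S (eT n) n g + D (S (eT n) n g)) + (1 - X) ^ 2 * S (eT n) n (th g)
        - 2 * X * S (eT n) n g)) * hPX
  have hMv : (p : R[X]) * M (S eV n g) = (p : R[X]) * (-4 * (1 - X ^ 2) * D v0 + 4 * X ^ 2 * v0) := by
    linear_combination (p : R[X]) * m3 + hVg + 4 * (1 - X ^ 2) * (p : R[X]) * dV
  have hM : M (4 * (t0 - v0) - (p : R[X]) * (2 * S (eT n) n g - S eV n g)) = 0 := by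
    have h4' : D (4 : R[X]) = 0 := D_four
    have h2' : D (2 : R[X]) = 0 := D_two
    rw [M_sub, M_const_mul _ _ h4', M_const_mul _ _ hq, M_sub, M_sub, hV, M_const_mul _ _ h2']
    apply cancel_1X'
    have : 4 * ((1 + X) * (4 * (M t0 - 0) - (p : R[X]) * (2 * M (S (eT n) n g) - M (S eV n g)))) = 0 := by
      linear_combination 4 * hMc - 2 * hMg + 4 * (1 + X) * hMv + 16 * (1 - X ^ 2) * (1 + X) * hDL
        - 16 * (p : R[X]) * (1 - X ^ 2) * d1 - 16 * (1 - X ^ 2) * X * t0 * hPX
        - 16 * (1 + X) * X ^ 2 * hL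
    linear_combination C (t ^ 2) * this - ((1 + X) * (4 * (M t0 - 0)
      - (p : R[X]) * (2 * M (S (eT n) n g) - M (S eV n g)))) * h4
  have hpp : 2 * n < p := by have := hx.hpn; omega
  have := M_uniq p hx.hu _ hM
    (by
      rw [coeff_sub, mul_coeff_zero, mul_coeff_zero, coeff_sub, coeff_sub, mul_coeff_zero,
        coeff_zero_T, coeff_zero_T, coeff_zero_V, coeff_zero_V, hs.g0, sub_self]
      ring)
    (by
      refine lt_of_le_of_lt ?_ hpp
      have a1 : (4 * (t0 - v0)).natDegree ≤ 2 * n := by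
        rw [← map_ofNat C 4]
        refine (natDegree_C_mul_le _ _).trans ?_
        exact (natDegree_sub_le_iff_left (n := 2 * n)
          (natDegree_S_le _ _ _ _ (natDegree_eV_le n))).2
            (natDegree_S_le _ _ _ _ (natDegree_eT_le n))
      have a2 : ((p : R[X]) * (2 * S (eT n) n g - S eV n g)).natDegree ≤ 2 * n := by
        rw [← C_eq_natCast, ← map_ofNat C 2]
        refine (natDegree_C_mul_le _ _).trans ?_
        exact (natDegree_sub_le_iff_left (n := 2 * n)
          (natDegree_S_le _ _ _ _ (natDegree_eV_le n))).2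
            ((natDegree_C_mul_le _ _).trans (natDegree_S_le _ _ _ _ (natDegree_eT_le n)))
      exact (natDegree_sub_le_iff_left (n := 2 * n) a2).2 a1)
  linear_combination this

omit hx hs in
lemma D_N (y : ℕ → R) : D (S eN n y) = S eN n (th y) := by
  have := S_D eN n 1 1 0 (fun j _ => eN_D j) y
  linear_combination this

lemma Q_N_sq : Q (S eN n c ^ 2) = 0 := by
  have hA := eq_c hx hs eN 1 X (fun j _ => eN_shift j)
  rw [← D_N, ← D_N] at hA
  have hB := congrArg D hA
  simp only [D_mul, D_add, D_one, D_X] at hB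
  rw [sq, Q_mul]
  unfold Q
  rw [D_four] at hB
  linear_combination (1 - X) * S eN n c * hB + 3 * (1 - X) * D (S eN n c) * hA - X * S eN n c * hA

omit hx hs in
lemma Q_R (y : ℕ → R) :
    (1 - X) * Q (S (eR t) n y) = (1 - 2 * X) * (2 * S (eR t) n (th (th (th y)))
      - X * (1 - X) * (8 * S (eR t) n (th (th (th y))) + 12 * S (eR t) n (th (th y))
        + 6 * S (eR t) n (th y) + S (eR t) n y)) := by
  have e1 := S_D (eR t) n (1 - X) (1 - 2 * X) 0 (fun j _ => eR_D t j) y
  have f1 := S_D (eR t) n (1 - X) (1 - 2 * X) 0 (fun j _ => eR_D t j) (th y)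
  have g1 := S_D (eR t) n (1 - X) (1 - 2 * X) 0 (fun j _ => eR_D t j) (th (th y))
  rw [zero_mul, add_zero] at e1 f1 g1
  have e2 := congrArg D e1
  have f2 := congrArg D f1
  simp only [D_mul, D_sub, D_one, D_X, D_two, zero_mul, zero_add, zero_sub] at e2 f2
  have e3 := congrArg D e2
  simp only [D_mul, D_sub, D_add, D_one, D_X, D_two, D_neg, zero_mul, zero_add, zero_sub] at e3
  unfold Q
  linear_combination 2 * (1 - X) ^ 2 * e3 - 2 * X * (1 - X) * e2 - 2 * X * (1 - X) * e1
    + 2 * (1 - X) * (1 - 2 * X) * f2 - 8 * X * (1 - X) * f1 + 2 * (1 - 2 * X) ^ 2 * g1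

/-- Clausen modulo `p ^ 2`. -/
theorem clausen2 : S (eR t) n f = S eN n c ^ 2 := by
  have hQ1 := Q_N_sq hx hs
  have hR := eq_f hx hs (eR t) 16 (X * (1 - X)) (fun j _ => eR_shift t hx.ht j)
  have hQR := Q_R (n := n) (t := t) f
  have hQ2 : Q (S (eR t) n f) = 0 := by
    have hm : (X - C (1 : R)).Monic := monic_X_sub_C 1
    refine (hm.mul_right_eq_zero_iff).1 ?_
    have : 8 * ((1 - X) * Q (S (eR t) n f)) = 0 := by
      linear_combination 8 * hQR + (1 - 2 * X) * hR
    have h8 : (8 : R[X]) * C (t ^ 3) = 1 := by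
      rw [← map_ofNat C 8, ← C_mul, ← C_1]
      congr 1
      linear_combination (4 * t ^ 2 + 2 * t + 1) * hx.ht
    rw [C_1]
    linear_combination -C (t ^ 3) * this + ((1 - X) * Q (S (eR t) n f)) * h8
  have hpp : 2 * n < p := by have := hx.hpn; omega
  have hd : (S (eR t) n f - S eN n c ^ 2).natDegree < p := by
    refine lt_of_le_of_lt ?_ hpp
    have a1 : (S (eR t) n f).natDegree ≤ 2 * n :=
      natDegree_S_le _ _ _ _ (natDegree_eR_le t n)
    have a2 : (S eN n c ^ 2).natDegree ≤ 2 * n := by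
      refine natDegree_pow_le.trans ?_
      have : (S eN n c).natDegree ≤ n := natDegree_S_le _ _ _ _ (natDegree_eN_le n)
      omega
    exact (natDegree_sub_le_iff_left (n := 2 * n) a2).2 a1
  have := Q_uniq p hx.hu t hx.ht (S (eR t) n f - S eN n c ^ 2) (by rw [Q_sub, hQ1, hQ2, sub_zero])
    (by
      rw [coeff_sub, coeff_zero_R, pow_two, mul_coeff_zero, coeff_zero_N, hs.c0, hs.f0]
      ring) hd
  exact sub_eq_zero.1 this

end

end Pool.Agent.V11294.M2
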