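import Pool.Agent.V11294.M2.Conc

/-!
# The CM point of discriminant `-7`
-/

namespace Pool.Agent.V11294.M2

open Finset Polynomial

variable {R : Type*} [CommRing R] {p n : ℕ} {t : R} (hx : Ctx R p n t)

section
include hx

/-- value of `t^4 x (1-x)` at `x = w^4`. -/
lemma z_w (w : R) (hw : w ^ 2 - w + 2 = 0) : t ^ 4 * (w ^ 4 * (1 - w ^ 4)) = 1 := by
  have h1 : w ^ 4 * (1 - w ^ 4) = 16 := by
    linear_combination (-w ^ 6 - w ^ 5 + w ^ 4 + 3 * w ^ 3 + 2 * w ^ 2 - 4 * w - 8) * hw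
  rw [h1]
  linear_combination (8 * t ^ 3 + 4 * t ^ 2 + 2 * t + 1) * hx.ht

/-- value of `t^4 x (1-x)` at `x = v^4`, `v = 1/w`. -/
lemma z_v (w v : R) (hw : w ^ 2 - w + 2 = 0) (hv : w * v = 1) :
    t ^ 4 * (v ^ 4 * (1 - v ^ 4)) = -v ^ 12 := by
  have h1 := z_w hx w hw
  have h4 : w ^ 4 * v ^ 4 = 1 := by rw [← mul_pow, hv, one_pow]
  have h2 : t ^ 4 * (v ^ 4 * (1 - v ^ 4)) = -v ^ 12 * (t ^ 4 * (w ^ 4 * (1 - w ^ 4))) := by
    linear_combination t ^ 4 * (v ^ 8 - v ^ 4 * (w ^ 4 * v ^ 4 + 1)) * h4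
  rw [h2, h1, mul_one]

/-- `F(1) = U(w^4)^2`. -/
lemma F_w (w : R) (hw : w ^ 2 - w + 2 = 0) :
    ∑ j ∈ range (n + 1), ff R j = ev n (cc R t) (w ^ 4) ^ 2 := by
  have h := congrArg (eval (w ^ 4)) (clausen2 hx (sq_conc hx))
  rw [eval_R, z_w hx w hw, eval_pow, eval_N] at h
  rw [← h]
  unfold ev
  exact sum_congr rfl fun j _ => by simp

/-- `F(-v^12) = U(v^4)^2`. -/
lemma F_v (w v : R) (hw : w ^ 2 - w + 2 = 0) (hv : w * v = 1) :
    ∑ j ∈ range (n + 1), ff R j * (-v ^ 12) ^ j = ev n (cc R t) (v ^ 4) ^ 2 := by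
  have h := congrArg (eval (v ^ 4)) (clausen2 hx (sq_conc hx))
  rw [eval_R, z_v hx w v hw hv, eval_pow, eval_N] at h
  rw [← h]
  rfl

lemma L1_w (w : R) (hw : w ^ 2 - w + 2 = 0) :
    (p : R) * ((1 - w) ^ (2 * n) * ev n (cc R t) (w ^ 4)) = p * ev n (cc R t) (w ^ 4) := by
  have h := congrArg (eval (w ^ 2)) (landen1 hx (sq_conc (t := t) hx))
  have h1 : (4 : R) * w ^ 2 = w ^ 4 * (1 + w ^ 2) ^ 2 := by
    linear_combination (-(w ^ 6) - w ^ 5 - w ^ 4 + w ^ 3 + 2 * w ^ 2) * hw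
  rw [eval_mul, eval_mul, eval_natCast, eval_T (n := n) (cc R t) (w ^ 2) (w ^ 4) h1, eval_V,
    ← pow_mul, show 2 * 2 = 4 from rfl] at h
  have h2 : (1 + w ^ 2) ^ (2 * n) = (1 - w) ^ (2 * n) := by
    rw [pow_mul, pow_mul]; congr 1
    linear_combination (w ^ 2 + w) * hw
  rw [h2] at h
  exact h

lemma L2_w (w : R) (hw : w ^ 2 - w + 2 = 0) :
    4 * ((1 - w) ^ (2 * n) * ev n (cc R t) (w ^ 4) - ev n (cc R t) (w ^ 4)) =
      p * (2 * ((1 - w) ^ (2 * n) * ev n (gg R t) (w ^ 4)) - ev n (gg R t) (w ^ 4)) := by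
  have h := congrArg (eval (w ^ 2)) (landen2 hx (sq_conc (t := t) hx))
  have h1 : (4 : R) * w ^ 2 = w ^ 4 * (1 + w ^ 2) ^ 2 := by
    linear_combination (-(w ^ 6) - w ^ 5 - w ^ 4 + w ^ 3 + 2 * w ^ 2) * hw
  simp only [eval_mul, eval_sub, eval_natCast, eval_ofNat] at h
  rw [eval_T (n := n) (cc R t) (w ^ 2) (w ^ 4) h1, eval_T (n := n) (gg R t) (w ^ 2) (w ^ 4) h1,
    eval_V, eval_V, ← pow_mul, show 2 * 2 = 4 from rfl] at h
  have h2 : (1 + w ^ 2) ^ (2 * n) = (1 - w) ^ (2 * n) := by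
    rw [pow_mul, pow_mul]; congr 1
    linear_combination (w ^ 2 + w) * hw
  rw [h2] at h
  exact h

lemma L1_v (w v : R) (hw : w ^ 2 - w + 2 = 0) (hv : w * v = 1) :
    (p : R) * ((1 + v ^ 2) ^ (2 * n) * ev n (cc R t) (w ^ 4)) = p * ev n (cc R t) (v ^ 4) := by
  have h := congrArg (eval (v ^ 2)) (landen1 hx (sq_conc (t := t) hx))
  have h1 : (4 : R) * v ^ 2 = w ^ 4 * (1 + v ^ 2) ^ 2 := by
    have e1 : w ^ 2 * (1 + v ^ 2) = w - 1 := by
      linear_combination hw + (w * v + 1) * hv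
    have e2 : w ^ 4 * (1 + v ^ 2) ^ 2 = (w - 1) ^ 2 := by
      linear_combination (w ^ 2 * (1 + v ^ 2) + (w - 1)) * e1
    rw [e2]
    have e3 : (4 : R) = w ^ 2 * (1 - w) ^ 2 := by
      linear_combination (-(w ^ 2) + w + 2) * hw
    rw [e3]
    linear_combination (1 - w) ^ 2 * (w * v + 1) * hv
  rw [eval_mul, eval_mul, eval_natCast, eval_T (n := n) (cc R t) (v ^ 2) (w ^ 4) h1, eval_V,
    ← pow_mul, show 2 * 2 = 4 from rfl] at h
  exact h

/-- The split case. -/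
theorem split_pt (hp : p.Prime) (w v a b : R) (hw : w ^ 2 - w + 2 = 0) (hv : w * v = 1)
    (ha : w ^ (2 * n) = 1 + p * a) (hb : (1 - w) ^ (2 * n) = 1 + p * b) :
    ev n (cc R t) (v ^ 4) = ev n (cc R t) (w ^ 4) := by
  have hP := hx.hP
  have ht := hx.ht
  have h2 := L2_w hx w hw
  rw [hb] at h2
  have hr := ev_rev (t := t) hx (w ^ 4) (v ^ 4) (by rw [← mul_pow, hv, one_pow])
  have hwn : (w ^ 4) ^ n = (1 + p * a) ^ 2 := by
    rw [← ha]; ring
  have hd := P_dl_n hx hp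
  have h2p : (2 : R) ^ p = 2 * ((1 + p * a) * (1 + p * b)) := by
    have e : (2 : R) = w * (1 - w) := by linear_combination hw
    have e2 : (2 : R) ^ (2 * n) = (1 + p * a) * (1 + p * b) := by
      calc (2 : R) ^ (2 * n) = (w * (1 - w)) ^ (2 * n) := by rw [← e]
        _ = _ := by rw [mul_pow, ha, hb]
    calc (2 : R) ^ p = 2 ^ (2 * n + 1) := by rw [← hx.hpn]
      _ = 2 * ((1 + p * a) * (1 + p * b)) := by rw [pow_succ, e2]; ring
  rw [h2p] at hd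
  rw [hwn] at hr
  generalize ev n (cc R t) (v ^ 4) = V at *
  generalize ev n (cc R t) (w ^ 4) = U at *
  generalize ev n (gg R t) (w ^ 4) = G at *
  generalize dl R n = d at *
  generalize (p : R) = P at *
  -- P G = 4 P b U
  have hG : P * G = 4 * P * b * U := by
    linear_combination -h2 - 2 * b * G * hP
  have key : (1 + 2 * P * a) * V = (1 + 2 * P * a) * U := by
    linear_combination hr - a ^ 2 * V * hP + (U - P * (t * G)) * hd - t * (1 + P * (2 * a + 2 * b)) * hG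
      - 2 * P * b * U * (1 + P * (2 * a + 2 * b)) * ht
      + (2 * a * b * U - 4 * b * (a + b) * U - 2 * P * a * b * t * G) * hP
  linear_combination (1 - 2 * P * a) * key + 4 * a ^ 2 * (V - U) * hP

/-- The inert case. -/
theorem inert_pt (w v : R) (hw : w ^ 2 - w + 2 = 0) (hv : w * v = 1)
    (hb : (p : R) * (1 - w) ^ p = p * w) (h7 : IsUnit (2 * w - 1)) :
    (p : R) * ev n (cc R t) (w ^ 4) = 0 ∧ (p : R) * ev n (cc R t) (v ^ 4) = 0 := by
  have h1 := L1_w (t := t) hx w hw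
  have h2 := L1_v (t := t) hx w v hw hv
  have hb' : (p : R) * ((1 - w) ^ (2 * n) * (1 - w)) = p * w := by
    rw [← pow_succ, ← hx.hpn]; exact hb
  have h3 : (2 * w - 1) * ((p : R) * ev n (cc R t) (w ^ 4)) = 0 := by
    linear_combination (1 - w) * h1 - ev n (cc R t) (w ^ 4) * hb'
  have h4 := (h7.mul_right_eq_zero).1 h3
  refine ⟨h4, ?_⟩
  rw [← h2]
  linear_combination (1 + v ^ 2) ^ (2 * n) * h4

end

end Pool.Agent.V11294.M2
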