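import Pool.Agent.V11294.M2.Seven

/-!
# `∑ (21 k + 8) C(2k,k)^3 ≡ 8 p (mod p^2)` from the fixed point of the Landen transformation
-/

namespace Pool.Agent.V11294.M2

open Finset Polynomial

variable {R : Type*} [CommRing R]

section

variable {p n : ℕ} {t : R} (hx : Ctx R p n t) {c g f : ℕ → R} (hs : Sq p n t c g f)
include hx hs

/-- The Wronskian. -/
theorem wronsk : (p : R[X]) * (S eN n c * S eN n (th g) - S eN n g * S eN n (th c) + S eN n c ^ 2) =
    (p : R[X]) * ∑ m ∈ range p, X ^ m := by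
  have hA := eq_c hx hs eN 1 X (fun j _ => eN_shift j)
  have hG := eq_g hx hs eN 1 X (fun j _ => eN_shift j)
  have d0 := D_N (n := n) c
  have d1 := D_N (n := n) (th c)
  have b0 := D_N (n := n) g
  have b1 := D_N (n := n) (th g)
  set W : R[X] := (p : R[X]) * (S eN n c * S eN n (th g) - S eN n g * S eN n (th c) + S eN n c ^ 2)
    with hW
  have hODE : 4 * ((1 - X) * D W - X * W) = 0 := by
    rw [hW, D_mul, D_add, D_sub, D_mul, D_mul, sq, D_mul, d0, d1, b0, b1, D_natCast]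
    linear_combination S eN n c * hG - (p : R[X]) * S eN n g * hA
  have hODE' : (1 - X) * D W = X * W := by
    linear_combination C (t ^ 2) * hODE - ((1 - X) * D W - X * W) * hx.h4
  have hpn := hx.hpn
  have hdeg : W.natDegree ≤ 2 * n := by
    rw [hW, ← C_eq_natCast]
    refine (natDegree_C_mul_le _ _).trans ?_
    have hN : ∀ y : ℕ → R, (S eN n y).natDegree ≤ n := fun y =>
      natDegree_S_le _ _ _ _ (natDegree_eN_le n)
    have a1 : (S eN n c * S eN n (th g)).natDegree ≤ 2 * n :=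
      natDegree_mul_le.trans (by have := hN c; have := hN (th g); omega)
    have a2 : (S eN n g * S eN n (th c)).natDegree ≤ 2 * n :=
      natDegree_mul_le.trans (by have := hN g; have := hN (th c); omega)
    have a3 : (S eN n c ^ 2).natDegree ≤ 2 * n :=
      natDegree_pow_le.trans (by have := hN c; omega)
    refine (natDegree_add_le _ _).trans (max_le ((natDegree_sub_le _ _).trans (max_le a1 a2)) a3)
  have h0 : W.coeff 0 = p := by
    rw [hW, mul_coeff_zero, coeff_add, coeff_sub, mul_coeff_zero, mul_coeff_zero, sq,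
      mul_coeff_zero, coeff_zero_N, coeff_zero_N, coeff_zero_N, coeff_zero_N, hs.c0, hs.g0]
    simp [th]
  have hcoeff : ∀ m, m < p → W.coeff m = p := by
    intro m
    induction m with
    | zero => intro _; exact h0
    | succ m ih =>
      intro hm
      have h1 := congrArg (fun q => coeff q (m + 1)) hODE'
      simp only [sub_mul, one_mul, coeff_sub, coeff_X_mul, coeff_D] at h1
      rw [ih (by omega)] at h1
      have h2 := hx.hu (m + 1) (by omega) hm
      apply h2.mul_left_cancel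
      push_cast at h1 ⊢
      linear_combination h1
  ext m
  have hR : ((p : R[X]) * ∑ m ∈ range p, X ^ m).coeff m = if m < p then (p : R) else 0 := by
    rw [← C_eq_natCast, coeff_C_mul, finsetSum_coeff]
    simp only [coeff_X_pow]
    split_ifs with h
    · rw [Finset.sum_ite_eq, if_pos (mem_range.2 h), mul_one]
    · rw [Finset.sum_ite_eq, if_neg (by simpa using h), mul_zero]
  rw [hR]
  split_ifs with h
  · exact hcoeff m h
  · exact coeff_eq_zero_of_natDegree_lt (by omega)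

end

section

variable {p n : ℕ} {t : R} (hx : Ctx R p n t)
include hx

lemma wronsk_eval (x : R) : (p : R) * ((1 - x) * (ev n (cc R t) x * ev n (th (gg R t)) x
    - ev n (gg R t) x * ev n (th (cc R t)) x + ev n (cc R t) x ^ 2)) = p * (1 - x ^ p) := by
  have h := congrArg (eval x) (wronsk hx (sq_conc (t := t) hx))
  simp only [eval_mul, eval_add, eval_sub, eval_pow, eval_natCast, eval_N, eval_finsetSum,
    eval_X] at h
  have hg := mul_neg_geom_sum x p
  linear_combination (1 - x) * h + (p : R) * hg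

/-- Derivative of Clausen at `x`. -/
lemma clausen_deriv (w : R) (hw : w ^ 2 - w + 2 = 0) :
    (1 - 2 * w ^ 4) * ∑ j ∈ range (n + 1), (j : R) * ff R j =
      (1 - w ^ 4) * (2 * (ev n (cc R t) (w ^ 4) * ev n (th (cc R t)) (w ^ 4))) := by
  have h := congrArg D (clausen2 hx (sq_conc (t := t) hx))
  have e1 := S_D (eR t) n (1 - X) (1 - 2 * X) 0 (fun j _ => eR_D t j) (ff R)
  rw [sq, D_mul, D_N] at h
  have h2 : (1 - 2 * X) * S (eR t) n (th (ff R)) = (1 - X) * (2 * (S eN n (cc R t) *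
      S eN n (th (cc R t)))) := by
    linear_combination (1 - X) * h - e1
  have h3 := congrArg (eval (w ^ 4)) h2
  simp only [eval_mul, eval_sub, eval_one, eval_ofNat, eval_X, eval_N, eval_R] at h3
  rw [z_w hx w hw] at h3
  rw [← h3]
  unfold ev th
  congr 1
  exact sum_congr rfl fun j _ => by simp

/-- Derivative of Landen modulo `p ^ 2`. -/
lemma landen_deriv (w : R) (hw : w ^ 2 - w + 2 = 0) :
    4 * ((1 - w ^ 2) * (1 - w) ^ (2 * n) * ev n (th (cc R t)) (w ^ 4)
      + ((p : R) - 1) * w ^ 2 * ((1 - w) ^ (2 * n) * ev n (cc R t) (w ^ 4))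
      - 2 * (1 + w ^ 2) * ev n (th (cc R t)) (w ^ 4)) =
    p * (2 * ((1 - w ^ 2) * (1 - w) ^ (2 * n) * ev n (th (gg R t)) (w ^ 4)
      - w ^ 2 * ((1 - w) ^ (2 * n) * ev n (gg R t) (w ^ 4)))
      - 2 * (1 + w ^ 2) * ev n (th (gg R t)) (w ^ 4)) := by
  have hs := sq_conc (t := t) hx
  have h := congrArg D (landen2 hx hs)
  have dTc := S_D (eT n) n (1 + X) (1 - X) (2 * (n : R[X]) * X) (fun j hj => eT_D n j hj) (cc R t)
  have dTg := S_D (eT n) n (1 + X) (1 - X) (2 * (n : R[X]) * X) (fun j hj => eT_D n j hj) (gg R t)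
  rw [hx.h2n] at dTc dTg
  have dVc := S_D eV n 1 2 0 (fun j _ => eV_D j) (cc R t)
  have dVg := S_D eV n 1 2 0 (fun j _ => eV_D j) (gg R t)
  rw [D_mul, D_mul, D_sub, D_sub, D_mul, D_four, D_two, D_natCast] at h
  have hPX := hx.hPX
  have h2 : 4 * (((1 - X) * S (eT n) n (th (cc R t)) + ((p : R[X]) - 1) * X * S (eT n) n (cc R t))
      - 2 * (1 + X) * S eV n (th (cc R t))) =
      (p : R[X]) * (2 * ((1 - X) * S (eT n) n (th (gg R t)) - X * S (eT n) n (gg R t))
        - 2 * (1 + X) * S eV n (th (gg R t))) := by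
    linear_combination (1 + X) * h - 4 * dTc + 4 * (1 + X) * dVc + 2 * (p : R[X]) * dTg
      - (p : R[X]) * (1 + X) * dVg + 2 * X * S (eT n) n (gg R t) * hPX
  have h1 : (4 : R) * w ^ 2 = w ^ 4 * (1 + w ^ 2) ^ 2 := by
    linear_combination (-(w ^ 6) - w ^ 5 - w ^ 4 + w ^ 3 + 2 * w ^ 2) * hw
  have h3 := congrArg (eval (w ^ 2)) h2
  simp only [eval_mul, eval_sub, eval_add, eval_one, eval_ofNat, eval_X, eval_natCast, eval_V] at h3
  rw [eval_T (n := n) _ (w ^ 2) (w ^ 4) h1, eval_T (n := n) _ (w ^ 2) (w ^ 4) h1,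
    eval_T (n := n) _ (w ^ 2) (w ^ 4) h1, eval_T (n := n) _ (w ^ 2) (w ^ 4) h1,
    ← pow_mul, show 2 * 2 = 4 from rfl] at h3
  have h4 : (1 + w ^ 2) ^ (2 * n) = (1 - w) ^ (2 * n) := by
    rw [pow_mul, pow_mul]; congr 1
    linear_combination (w ^ 2 + w) * hw
  rw [h4] at h3
  linear_combination h3

/-- The quadratic relation in the split case. -/
lemma quad_split (w a b : R) (hw : w ^ 2 - w + 2 = 0)
    (ha : w ^ (2 * n) = 1 + p * a) (hb : (1 - w) ^ (2 * n) = 1 + p * b) (hv : IsUnit (1 - w)) :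
    ev n (cc R t) (w ^ 4) * ((1 + 3 * w ^ 2) * ev n (th (cc R t)) (w ^ 4)
      + w ^ 2 * ev n (cc R t) (w ^ 4)) = p * w ^ 2 := by
  have hP := hx.hP
  have ht := hx.ht
  have h2 := L2_w (t := t) hx w hw
  have h3 := landen_deriv (t := t) hx w hw
  have hW := wronsk_eval (t := t) hx (w ^ 4)
  have hwp : (p : R) * (w ^ 4) ^ p = p * w ^ 4 := by
    have : (w ^ 4) ^ p = (w ^ (2 * n)) ^ 4 * w ^ 4 := by
      rw [← pow_mul, ← pow_mul, ← pow_add]; congr 1; have := hx.hpn; omega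
    rw [this, ha]
    linear_combination (w ^ 4 * (a * (4 + 6 * p * a + 4 * p ^ 2 * a ^ 2 + p ^ 3 * a ^ 3))) * hP
  have hu : IsUnit (1 - w ^ 4) := by
    have : 1 - w ^ 4 = (1 - w) ^ 4 := by linear_combination (-2 * w ^ 2 + 2 * w) * hw
    rw [this]; exact hv.pow 4
  rw [hb] at h2 h3
  generalize ev n (cc R t) (w ^ 4) = u0 at *
  generalize ev n (th (cc R t)) (w ^ 4) = u1 at *
  generalize ev n (gg R t) (w ^ 4) = g0 at *
  generalize ev n (th (gg R t)) (w ^ 4) = g1 at *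
  generalize hPp : (p : R) = P at *
  have hG : P * g0 = 4 * P * b * u0 := by
    linear_combination -h2 - 2 * b * g0 * hP
  have hW' : P * (u0 * g1 - g0 * u1 + u0 ^ 2) = P := by
    apply hu.mul_left_cancel
    linear_combination hW - hwp
  set k := w ^ 2 with hk
  have h4 : 4 * ((1 + 3 * k) * u1 + k * u0) = 4 * (P * ((1 - k) * b * u1 + k * u0 - k * b * u0
      + k * g1 + 2 * k * b * u0)) := by
    linear_combination -h3 + 4 * k * u0 * b * hP + 2 * k * hG - 2 * ((1 - k) * b * g1 - k * b * g0) * hP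
  have h5 : (1 + 3 * k) * u1 + k * u0 = P * ((1 - k) * b * u1 + k * u0 - k * b * u0
      + k * g1 + 2 * k * b * u0) := by
    linear_combination t ^ 2 * h4 - ((1 + 3 * k) * u1 + k * u0 - P * ((1 - k) * b * u1 + k * u0
      - k * b * u0 + k * g1 + 2 * k * b * u0)) * (2 * t + 1) * ht
  have h6 : P * ((1 + 3 * k) * u1 + k * u0) = 0 := by
    rw [h5]
    linear_combination ((1 - k) * b * u1 + k * u0 - k * b * u0 + k * g1 + 2 * k * b * u0) * hP
  linear_combination u0 * h5 + k * hW' + b * u0 * h6 + k * u1 * hG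

/-- The quadratic relation in the inert case. -/
lemma quad_inert (w u' : R) (hw : w ^ 2 - w + 2 = 0)
    (h1 : (p : R) * (1 - w) ^ p = p * w) (h2 : (p : R) * w ^ p = p * (1 - w))
    (hu0 : ev n (cc R t) (w ^ 4) = p * u') (hy : IsUnit (2 * w - 1)) :
    ev n (cc R t) (w ^ 4) * ((1 + 3 * w ^ 2) * ev n (th (cc R t)) (w ^ 4)
      + w ^ 2 * ev n (cc R t) (w ^ 4)) = p * w ^ 2 := by
  have hP := hx.hP
  have ht := hx.ht
  have h3 := L2_w (t := t) hx w hw
  have hW := wronsk_eval (t := t) hx (w ^ 4)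
  have hE : (p : R) * ((1 - w) ^ (2 * n) * (1 - w)) = p * w := by
    rw [← pow_succ, ← hx.hpn]; exact h1
  have hwp : (p : R) * (w ^ 4) ^ p = p * (1 - w) ^ 4 := by
    have e : (w ^ 4) ^ p = (w ^ p) ^ 4 := by rw [← pow_mul, ← pow_mul, mul_comm]
    rw [e]
    linear_combination ((w ^ p) ^ 3 + (w ^ p) ^ 2 * (1 - w) + w ^ p * (1 - w) ^ 2 + (1 - w) ^ 3) * h2
  have hv' : (1 - w) * (w * t) = 1 := by linear_combination ht - t * hw
  have u1' : IsUnit (1 - w) := IsUnit.of_mul_eq_one _ hv'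
  have u4 : IsUnit (4 : R) := IsUnit.of_mul_eq_one (t ^ 2) (by linear_combination (2 * t + 1) * ht)
  rw [hu0] at h3 hW ⊢
  generalize ev n (th (cc R t)) (w ^ 4) = u1 at *
  generalize ev n (gg R t) (w ^ 4) = g0 at *
  generalize ev n (th (gg R t)) (w ^ 4) = g1 at *
  generalize (1 - w) ^ (2 * n) = E at *
  generalize (w ^ 4) ^ p = lp at *
  generalize hPp : (p : R) = P at *
  have hW' : P * (1 - w ^ 4) * (g0 * u1) = -(P * w ^ 4) := by
    linear_combination -hW + hwp + (1 - w ^ 4) * (u' * g1 + P * u' ^ 2) * hP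
      + P * (2 * w ^ 2 - 2 * w) * hw
  have hq : 4 * P * (2 * w - 1) * (u' * u1) = P * (3 * w - 1) * (g0 * u1) := by
    linear_combination (1 - w) * u1 * h3 - 4 * u' * u1 * hE + 2 * g0 * u1 * hE
  have hfin : 4 * (2 * w - 1) * (1 - w) ^ 4 * (P * u' * ((1 + 3 * w ^ 2) * u1) - P * w ^ 2) = 0 := by
    have hs1 : (1 - w) ^ 4 = 1 - w ^ 4 := by linear_combination (2 * w ^ 2 - 2 * w) * hw
    have e1 : w ^ 4 * (3 * w - 1) = 16 := by
      linear_combination (3 * w ^ 3 + 2 * w ^ 2 - 4 * w - 8) * hw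
    have e2 : 16 * (1 + 3 * w ^ 2) + 4 * (2 * w - 1) * (1 - w) ^ 4 * w ^ 2 = 0 := by
      linear_combination (8 * w ^ 5 - 28 * w ^ 4 + 20 * w ^ 3 + 20 * w ^ 2 + 4 * w + 8) * hw
    linear_combination (1 + 3 * w ^ 2) * (1 - w) ^ 4 * hq + (1 + 3 * w ^ 2) * (3 * w - 1) * hW'
      + (1 + 3 * w ^ 2) * (3 * w - 1) * P * (g0 * u1) * hs1 - P * (1 + 3 * w ^ 2) * e1 - P * e2
  have hunit : IsUnit (4 * (2 * w - 1) * (1 - w) ^ 4) := (u4.mul hy).mul (u1'.pow 4)
  have h9 := (hunit.mul_right_eq_zero).1 hfin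
  linear_combination h9 + w ^ 2 * u' ^ 2 * hP

/-- From the quadratic relation to the Ramanujan-type sum. -/
lemma ram_of_quad (w : R) (hw : w ^ 2 - w + 2 = 0) (hy : IsUnit (2 * w - 1)) (h3 : IsUnit (3 : R))
    (hq : ev n (cc R t) (w ^ 4) * ((1 + 3 * w ^ 2) * ev n (th (cc R t)) (w ^ 4)
      + w ^ 2 * ev n (cc R t) (w ^ 4)) = p * w ^ 2) :
    ∑ j ∈ range (n + 1), (21 * (j : R) + 8) * ff R j = 8 * p := by
  have ht := hx.ht
  have hc := clausen_deriv (t := t) hx w hw
  have hF := F_w (t := t) hx w hw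
  have hv : w * ((1 - w) * t) = 1 := by linear_combination ht - t * hw
  have uw : IsUnit w := IsUnit.of_mul_eq_one _ hv
  have u12 : IsUnit (1 - 2 * w ^ 4) := by
    have : 1 - 2 * w ^ 4 = 3 * (2 * w - 1) := by linear_combination (-2 * w ^ 2 - 2 * w + 2) * hw
    rw [this]; exact h3.mul hy
  have hsum : ∑ j ∈ range (n + 1), (21 * (j : R) + 8) * ff R j =
      21 * ∑ j ∈ range (n + 1), (j : R) * ff R j + 8 * ∑ j ∈ range (n + 1), ff R j := by
    rw [mul_sum, mul_sum, ← sum_add_distrib]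
    exact sum_congr rfl fun j _ => by ring
  rw [hsum, hF]
  generalize ev n (cc R t) (w ^ 4) = u0 at *
  generalize ev n (th (cc R t)) (w ^ 4) = u1 at *
  generalize ∑ j ∈ range (n + 1), (j : R) * ff R j = F1 at *
  apply ((uw.pow 2).mul u12).mul_left_cancel
  have e : 42 * w ^ 2 * (1 - w ^ 4) = 8 * (1 - 2 * w ^ 4) * (1 + 3 * w ^ 2) := by
    linear_combination (6 * w ^ 4 + 6 * w ^ 3 + 10 * w ^ 2 - 2 * w - 4) * hw
  linear_combination 21 * w ^ 2 * hc + 8 * (1 - 2 * w ^ 4) * hq + u0 * u1 * e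

end

end Pool.Agent.V11294.M2
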